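import Pool.Agent.H24.RD.Targets

set_option autoImplicit false

namespace Pool.Agent.H67.RD

open Pool.Agent.H24.RD Finset NumberField Height Real

/-- The product formula in additive form over a finite set of finite places. -/
lemma pf_formula {M : Type} [Field M] [NumberField M] (S : Finset (FinitePlace M)) (x : M)
    (hx : x ≠ 0) (hS : Function.mulSupport (fun v : FinitePlace M => v x) ⊆ S) :
    ∑ w : InfinitePlace M, (w.mult : ℝ) * Real.log (w x) + ∑ v ∈ S, Real.log (v x) = 0 := by
  have h := prod_abs_eq_one hx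
  rw [finprod_eq_prod_of_mulSupport_subset _ hS] at h
  have h1 : ∀ w ∈ (univ : Finset (InfinitePlace M)), (w x) ^ w.mult ≠ 0 := by
    intro w _
    exact pow_ne_zero _ ((InfinitePlace.pos_iff).2 hx).ne'
  have h2 : ∀ v ∈ S, (v x : ℝ) ≠ 0 := by
    intro v _
    exact ((FinitePlace.pos_iff).2 hx).ne'
  have h3 := congrArg Real.log h
  rw [Real.log_one, Real.log_mul (prod_ne_zero_iff.2 h1) (prod_ne_zero_iff.2 h2),
    Real.log_prod h1, Real.log_prod h2] at h3
  rw [← h3]
  congr 1
  exact sum_congr rfl fun w _ => (Real.log_pow _ _).symm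

lemma pf_posLog {x : ℝ} (hx : 0 ≤ x) : log⁺ x = Real.log (max x 1) := by
  rw [posLog_eq_log_max_one hx, max_comm]

lemma pf_supp {M : Type} [Field M] [NumberField M] (x : M) :
    (Function.support fun v : FinitePlace M => log⁺ (v x)).Finite := by
  by_cases hx : x = 0
  · subst hx
    have : (Function.support fun v : FinitePlace M => log⁺ (v (0 : M))) = ∅ := by
      rw [Function.support_eq_empty_iff]
      funext v
      simp
    rw [this]
    exact Set.finite_empty
  · refine (FinitePlace.hasFiniteMulSupport hx).subset ?_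
    intro v hv
    rw [Function.mem_support] at hv
    rw [Function.mem_mulSupport]
    intro h
    apply hv
    rw [h, posLog_one]

theorem pf_PF : T_PF := by
  classical
  intro M _ _ p hp ι _ U W hUW l hloc
  have hloc : ∀ v : FinitePlace M, v (p : M) < 1 →
    ∃ i, v (U i - W i) ≤ v (p : M) ^ l * (max (v (U i)) 1 * max (v (W i)) 1) := hloc
  have hp0 : (p : M) ≠ 0 := by exact_mod_cast hp.ne_zero
  have hx : ∀ i, U i - W i ≠ 0 := fun i => sub_ne_zero.2 (hUW i)
  -- the finite set of places
  have hfin : ((⋃ i, Function.mulSupport fun v : FinitePlace M => v (U i - W i)) ∪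
      ((Function.mulSupport fun v : FinitePlace M => v (p : M)) ∪
      ((⋃ i, Function.support fun v : FinitePlace M => log⁺ (v (U i))) ∪
      (⋃ i, Function.support fun v : FinitePlace M => log⁺ (v (W i)))))).Finite :=
    (Set.finite_iUnion fun i => FinitePlace.hasFiniteMulSupport (hx i)).union
      ((FinitePlace.hasFiniteMulSupport hp0).union
        ((Set.finite_iUnion fun i => pf_supp (U i)).union
          (Set.finite_iUnion fun i => pf_supp (W i))))
  set S : Finset (FinitePlace M) := hfin.toFinset with hS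
  have hS1 : ∀ i, Function.mulSupport (fun v : FinitePlace M => v (U i - W i)) ⊆ S := by
    intro i v hv
    rw [hS, Set.Finite.coe_toFinset]
    exact Or.inl (Set.mem_iUnion.2 ⟨i, hv⟩)
  have hS2 : Function.mulSupport (fun v : FinitePlace M => v (p : M)) ⊆ S := by
    intro v hv
    rw [hS, Set.Finite.coe_toFinset]
    exact Or.inr (Or.inl hv)
  have hS3 : ∀ i, Function.support (fun v : FinitePlace M => log⁺ (v (U i))) ⊆ S := by
    intro i v hv
    rw [hS, Set.Finite.coe_toFinset]
    exact Or.inr (Or.inr (Or.inl (Set.mem_iUnion.2 ⟨i, hv⟩)))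
  have hS4 : ∀ i, Function.support (fun v : FinitePlace M => log⁺ (v (W i))) ⊆ S := by
    intro i v hv
    rw [hS, Set.Finite.coe_toFinset]
    exact Or.inr (Or.inr (Or.inr (Set.mem_iUnion.2 ⟨i, hv⟩)))
  have hU : ∀ i, logHeight₁ (U i) = (∑ w : InfinitePlace M, (w.mult : ℝ) * log⁺ (w (U i))) +
      ∑ v ∈ S, log⁺ (v (U i)) := by
    intro i
    rw [NumberField.logHeight₁_eq, finsum_eq_sum_of_support_subset _ (hS3 i)]
  have hW : ∀ i, logHeight₁ (W i) = (∑ w : InfinitePlace M, (w.mult : ℝ) * log⁺ (w (W i))) +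
      ∑ v ∈ S, log⁺ (v (W i)) := by
    intro i
    rw [NumberField.logHeight₁_eq, finsum_eq_sum_of_support_subset _ (hS4 i)]
  -- product formulas
  have h1 : ∀ i, ∑ w : InfinitePlace M, (w.mult : ℝ) * Real.log (w (U i - W i)) +
      ∑ v ∈ S, Real.log (v (U i - W i)) = 0 := fun i => pf_formula S _ (hx i) (hS1 i)
  have h2 : (Module.finrank ℚ M : ℝ) * Real.log p + ∑ v ∈ S, Real.log (v (p : M)) = 0 := by
    have := pf_formula S (p : M) hp0 hS2
    rw [← this]
    congr 1
    rw [← InfinitePlace.sum_mult_eq, Nat.cast_sum, sum_mul]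
    refine sum_congr rfl fun w _ => ?_
    rw [InfinitePlace.map_natCast]
  -- infinite places
  have h3 : ∀ i, ∑ w : InfinitePlace M, (w.mult : ℝ) * Real.log (w (U i - W i)) ≤
      (Module.finrank ℚ M : ℝ) * Real.log 2 +
      ((∑ w : InfinitePlace M, (w.mult : ℝ) * log⁺ (w (U i))) +
       ∑ w : InfinitePlace M, (w.mult : ℝ) * log⁺ (w (W i))) := by
    intro i
    rw [← InfinitePlace.sum_mult_eq, Nat.cast_sum, sum_mul, ← sum_add_distrib, ← sum_add_distrib]
    refine sum_le_sum fun w _ => ?_
    rw [← mul_add, ← mul_add]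
    refine mul_le_mul_of_nonneg_left ?_ (Nat.cast_nonneg _)
    have e1 : w (U i - W i) ≤ w (U i) + w (W i) := by
      have h := w.1.add_le (U i) (-(W i))
      rw [← sub_eq_add_neg, w.1.map_neg] at h
      exact h
    have e0 : 0 < w (U i - W i) := InfinitePlace.pos_iff.2 (hx i)
    calc Real.log (w (U i - W i)) ≤ Real.log (w (U i) + w (W i)) := Real.log_le_log e0 e1
      _ ≤ log⁺ (w (U i) + w (W i)) := by
          rw [posLog_apply]
          exact le_max_right _ _
      _ ≤ Real.log 2 + log⁺ (w (U i)) + log⁺ (w (W i)) := posLog_add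
      _ = Real.log 2 + (log⁺ (w (U i)) + log⁺ (w (W i))) := by ring
  -- finite places
  have hna : ∀ (v : FinitePlace M) (i : ι),
      Real.log (v (U i - W i)) ≤ log⁺ (v (U i)) + log⁺ (v (W i)) := by
    intro v i
    have e0 : 0 < v (U i - W i) := FinitePlace.pos_iff.2 (hx i)
    have e1 : v (U i - W i) ≤ max (v (U i)) 1 * max (v (W i)) 1 := by
      have h := FinitePlace.add_le v (U i) (-(W i))
      rw [← sub_eq_add_neg] at h
      have h' : v (-(W i)) = v (W i) := map_neg_eq_map v _
      rw [h'] at h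
      refine le_trans h (max_le ?_ ?_)
      · exact le_trans (le_max_left _ 1)
          (le_mul_of_one_le_right (le_trans zero_le_one (le_max_right _ _)) (le_max_right _ _))
      · exact le_trans (le_max_left _ 1)
          (le_mul_of_one_le_left (le_trans zero_le_one (le_max_right _ _)) (le_max_right _ _))
    rw [pf_posLog (apply_nonneg v _), pf_posLog (apply_nonneg v _), ← Real.log_mul
      (lt_of_lt_of_le one_pos (le_max_right _ _)).ne' (lt_of_lt_of_le one_pos (le_max_right _ _)).ne']
    exact Real.log_le_log e0 e1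
  have h4 : ∀ v : FinitePlace M, ∑ i, Real.log (v (U i - W i)) ≤
      (l : ℝ) * Real.log (v (p : M)) + ∑ i, (log⁺ (v (U i)) + log⁺ (v (W i))) := by
    intro v
    by_cases hv : v (p : M) < 1
    · obtain ⟨i, hi⟩ := hloc v hv
      rw [← add_sum_erase univ _ (mem_univ i), ← add_sum_erase univ (fun i =>
        log⁺ (v (U i)) + log⁺ (v (W i))) (mem_univ i), ← add_assoc]
      refine add_le_add ?_ (sum_le_sum fun j _ => hna v j)
      have e0 : 0 < v (U i - W i) := FinitePlace.pos_iff.2 (hx i)
      have ep : 0 < v (p : M) := FinitePlace.pos_iff.2 hp0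
      have m1 : (0 : ℝ) < max (v (U i)) 1 := lt_of_lt_of_le one_pos (le_max_right _ _)
      have m2 : (0 : ℝ) < max (v (W i)) 1 := lt_of_lt_of_le one_pos (le_max_right _ _)
      have := Real.log_le_log e0 hi
      rw [Real.log_mul (pow_pos ep l).ne' (mul_pos m1 m2).ne', Real.log_mul m1.ne' m2.ne',
        Real.log_pow] at this
      rw [pf_posLog (apply_nonneg v _), pf_posLog (apply_nonneg v _)]
      exact this
    · have hle : v (p : M) ≤ 1 := by
        have := FinitePlace.norm_le_one M v.maximalIdeal (p : 𝓞 M)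
        rw [FinitePlace.norm_embedding_eq] at this
        rw [map_natCast] at this
        exact this
      have he : v (p : M) = 1 := le_antisymm hle (not_lt.1 hv)
      rw [he, Real.log_one, mul_zero, zero_add]
      exact sum_le_sum fun j _ => hna v j
  -- conclusion
  have h5 : ∑ i, ∑ v ∈ S, Real.log (v (U i - W i)) ≤
      (l : ℝ) * ∑ v ∈ S, Real.log (v (p : M)) +
        ∑ i, ((∑ v ∈ S, log⁺ (v (U i))) + ∑ v ∈ S, log⁺ (v (W i))) := by
    rw [sum_comm, mul_sum]
    have e : ∑ i, ((∑ v ∈ S, log⁺ (v (U i))) + ∑ v ∈ S, log⁺ (v (W i))) =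
        ∑ v ∈ S, ∑ i, (log⁺ (v (U i)) + log⁺ (v (W i))) := by
      rw [sum_comm]
      exact sum_congr rfl fun i _ => sum_add_distrib.symm
    rw [e, ← sum_add_distrib]
    exact sum_le_sum fun v _ => h4 v
  have h6 : ∑ i, ∑ w : InfinitePlace M, (w.mult : ℝ) * Real.log (w (U i - W i)) ≤
      (Fintype.card ι : ℝ) * ((Module.finrank ℚ M : ℝ) * Real.log 2) +
      ∑ i, ((∑ w : InfinitePlace M, (w.mult : ℝ) * log⁺ (w (U i))) +
       ∑ w : InfinitePlace M, (w.mult : ℝ) * log⁺ (w (W i))) := by
    refine le_trans (sum_le_sum fun i _ => h3 i) (le_of_eq ?_)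
    rw [sum_add_distrib, sum_const, card_univ, nsmul_eq_mul]
  have h7 : ∑ i, (∑ w : InfinitePlace M, (w.mult : ℝ) * Real.log (w (U i - W i)) +
      ∑ v ∈ S, Real.log (v (U i - W i))) = 0 := sum_eq_zero fun i _ => h1 i
  rw [sum_add_distrib] at h7
  have h8 : ∑ i, (logHeight₁ (U i) + logHeight₁ (W i)) =
      ∑ i, ((∑ w : InfinitePlace M, (w.mult : ℝ) * log⁺ (w (U i))) +
       ∑ w : InfinitePlace M, (w.mult : ℝ) * log⁺ (w (W i))) +
      ∑ i, ((∑ v ∈ S, log⁺ (v (U i))) + ∑ v ∈ S, log⁺ (v (W i))) := by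
    rw [← sum_add_distrib]
    refine sum_congr rfl fun i _ => ?_
    rw [hU, hW]
    ring
  rw [h8]
  have h9 : (l : ℝ) * ∑ v ∈ S, Real.log (v (p : M)) =
      -((l : ℝ) * ((Module.finrank ℚ M : ℝ) * Real.log p)) := by
    have : ∑ v ∈ S, Real.log (v (p : M)) = -((Module.finrank ℚ M : ℝ) * Real.log p) := by
      linarith
    rw [this]
    ring
  rw [h9] at h5
  linarith [h5, h6, h7]

end Pool.Agent.H67.RD
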