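import Pool.Agent.H24.RD.Targets

set_option autoImplicit false

namespace Pool.Agent.H67.RD

open Pool.Agent.H24.RD Finset NumberField

lemma vb_int {M : Type} [Field M] [NumberField M] (v : FinitePlace M) {x : M}
    (hx : IsIntegral ℤ x) : v.1 x ≤ 1 := by
  have h := FinitePlace.norm_le_one M v.maximalIdeal (⟨x, hx⟩ : 𝓞 M)
  rw [FinitePlace.norm_embedding_eq] at h
  exact h

lemma vb_na {M : Type} [Field M] [NumberField M] (v : FinitePlace M) : IsNonarchimedean v.1 :=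
  fun x y => FinitePlace.add_le v x y

lemma vb_nat {M : Type} [Field M] [NumberField M] (v : FinitePlace M) {p : ℕ} (hp : p.Prime)
    (hv : v.1 (p : M) < 1) (m : ℕ) (hm : ¬ p ∣ m) : v.1 (m : M) = 1 := by
  have h1 : v.1 (m : M) ≤ 1 := vb_int v (isIntegral_natCast m)
  by_contra hne
  have h2 : v.1 (m : M) < 1 := lt_of_le_of_ne h1 hne
  have hc : IsCoprime (m : ℤ) (p : ℤ) :=
    Nat.isCoprime_iff_coprime.2 ((hp.coprime_iff_not_dvd.2 hm).symm)
  obtain ⟨a, b, hab⟩ := hc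
  have e : (1 : M) = (a : M) * (m : M) + (b : M) * (p : M) := by
    have : ((1 : ℤ) : M) = ((a * m + b * p : ℤ) : M) := by rw [hab]
    push_cast at this
    exact this
  have hz : ∀ z : ℤ, v.1 (z : M) ≤ 1 := fun z =>
    vb_int v (isIntegral_intCast z)
  have h3 : v.1 (1 : M) < 1 := by
    rw [e]
    refine lt_of_le_of_lt (vb_na v _ _) (max_lt ?_ ?_)
    · rw [map_mul]
      exact mul_lt_one_of_nonneg_of_lt_one_right (hz a) (v.1.nonneg _) h2
    · rw [map_mul]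
      exact mul_lt_one_of_nonneg_of_lt_one_right (hz b) (v.1.nonneg _) hv
  rw [map_one] at h3
  exact lt_irrefl _ h3

lemma vb_root {M : Type} [Field M] [NumberField M] (v : FinitePlace M) {p : ℕ} (hp : p.Prime)
    (hv : v.1 (p : M) < 1) (ρ : M) (a : ℕ) (hρ : ρ ≠ 1) (ha : ¬ p ∣ a) (h : ρ ^ a = 1) :
    v.1 (ρ - 1) = 1 := by
  have ha0 : 0 < a := Nat.pos_of_ne_zero (by rintro rfl; exact ha (dvd_zero p))
  have hint : IsIntegral ℤ ρ := IsIntegral.of_pow ha0 (by rw [h]; exact isIntegral_one)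
  set n := orderOf ρ with hn
  have hna : n ∣ a := orderOf_dvd_of_pow_eq_one h
  have hn0 : 0 < n := Nat.pos_of_dvd_of_pos hna ha0
  have hn1 : n ≠ 1 := fun e => hρ (orderOf_eq_one_iff.1 (hn ▸ e))
  have hprim : IsPrimitiveRoot ρ n := IsPrimitiveRoot.orderOf ρ
  obtain ⟨m, hm⟩ : ∃ m, n = m + 1 := ⟨n - 1, by omega⟩
  have hm0 : 0 < m := by omega
  rw [hm] at hprim
  have hprod := hprim.prod_one_sub_pow_eq_order
  have hpn : ¬ p ∣ (m + 1) := fun hd => ha (dvd_trans (hm ▸ hd) hna)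
  have hv1 : v.1 (∏ k ∈ range m, (1 - ρ ^ (k + 1))) = 1 := by
    rw [hprod]
    have := vb_nat v hp hv (m + 1) hpn
    push_cast at this
    exact this
  have hle : ∀ k, v.1 (1 - ρ ^ (k + 1)) ≤ 1 := fun k =>
    vb_int v (isIntegral_one.sub (hint.pow _))
  have h1 : v.1 (1 - ρ) ≤ 1 := by
    have := hle 0
    simpa using this
  by_contra hne
  have hne' : v.1 (1 - ρ) ≠ 1 := by
    intro e
    apply hne
    rw [← v.1.map_neg, neg_sub, e]
  have hlt : v.1 (1 - ρ) < 1 := lt_of_le_of_ne h1 hne'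
  rw [map_prod] at hv1
  obtain ⟨m', rfl⟩ : ∃ m', m = m' + 1 := ⟨m - 1, by omega⟩
  rw [prod_range_succ'] at hv1
  have h2 : ∏ k ∈ range m', v.1 (1 - ρ ^ (k + 1 + 1)) ≤ 1 :=
    prod_le_one (fun _ _ => v.1.nonneg _) (fun k _ => hle (k + 1))
  have h3 : (∏ k ∈ range m', v.1 (1 - ρ ^ (k + 1 + 1))) * v.1 (1 - ρ ^ (0 + 1)) < 1 := by
    rw [zero_add, pow_one]
    exact mul_lt_one_of_nonneg_of_lt_one_right h2 (v.1.nonneg _) hlt
  rw [hv1] at h3
  exact lt_irrefl _ h3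

/-- Two primitive roots of the same order are equally close to `1`. -/
lemma vb_prim {M : Type} [Field M] [NumberField M] (v : FinitePlace M) {n : ℕ} (hn : 0 < n)
    {ζ μ : M} (hζ : IsPrimitiveRoot ζ n) (hμ : IsPrimitiveRoot μ n) :
    v.1 (1 - μ) ≤ v.1 (1 - ζ) := by
  have : NeZero n := ⟨hn.ne'⟩
  obtain ⟨i, hi, rfl⟩ := hζ.eq_pow_of_pow_eq_one hμ.pow_eq_one
  have hint : IsIntegral ℤ ζ := IsIntegral.of_pow hn (by rw [hζ.pow_eq_one]; exact isIntegral_one)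
  have e : 1 - ζ ^ i = (∑ k ∈ range i, ζ ^ k) * (1 - ζ) := by
    have := geom_sum_mul ζ i
    linear_combination this
  rw [e, map_mul]
  have hs : v.1 (∑ k ∈ range i, ζ ^ k) ≤ 1 :=
    vb_int v (IsIntegral.sum _ fun k _ => hint.pow k)
  exact mul_le_of_le_one_left (v.1.nonneg _) hs

lemma vb_cyc {M : Type} [Field M] [NumberField M] (v : FinitePlace M) {p : ℕ} (hp : p.Prime)
    (hv : v.1 (p : M) < 1) (k : ℕ) (ζ : M) (hk : 1 ≤ k) (hζ : IsPrimitiveRoot ζ (p ^ k)) :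
    wv v.1 p (1 - ζ) = 1 / ((p : ℝ) ^ (k - 1) * (p - 1)) := by
  have : Fact p.Prime := ⟨hp⟩
  have hpos : 0 < v.1 (p : M) := v.1.pos (by exact_mod_cast hp.ne_zero)
  obtain ⟨j, rfl⟩ : ∃ j, k = j + 1 := ⟨k - 1, by omega⟩
  have h1 : (p : M) = ∏ μ ∈ primitiveRoots (p ^ (j + 1)) M, (1 - μ) := by
    rw [← Polynomial.eval_one_cyclotomic_prime_pow (R := M) (p := p) j,
      Polynomial.cyclotomic_eq_prod_X_sub_primitiveRoots hζ, Polynomial.eval_prod]
    simp
  have hn0 : 0 < p ^ (j + 1) := pow_pos hp.pos _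
  have h2 : v.1 (p : M) = v.1 (1 - ζ) ^ (p ^ j * (p - 1)) := by
    rw [h1, map_prod, prod_congr rfl (g := fun _ => v.1 (1 - ζ)) ?_, prod_const,
      hζ.card_primitiveRoots, Nat.totient_prime_pow hp (Nat.succ_pos j)]
    · rfl
    · intro μ hμ
      have hμ' := isPrimitiveRoot_of_mem_primitiveRoots hμ
      exact le_antisymm (vb_prim v hn0 hζ hμ') (vb_prim v hn0 hμ' hζ)
  have hcast : ((p ^ j * (p - 1) : ℕ) : ℝ) = (p : ℝ) ^ j * (p - 1) := by
    rw [Nat.cast_mul, Nat.cast_pow, Nat.cast_sub hp.one_le, Nat.cast_one]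
  have hp1 : (0 : ℝ) < (p : ℝ) - 1 := by
    have : (2 : ℝ) ≤ p := by exact_mod_cast hp.two_le
    linarith
  have hp0 : (0 : ℝ) < (p : ℝ) ^ j := pow_pos (by exact_mod_cast hp.pos) _
  have hlog : Real.log (v.1 (p : M)) = (p : ℝ) ^ j * (p - 1) * Real.log (v.1 (1 - ζ)) := by
    rw [h2, Real.log_pow, hcast]
  have hne : Real.log (v.1 (p : M)) ≠ 0 := (Real.log_neg hpos hv).ne
  have hne' : Real.log (v.1 (1 - ζ)) ≠ 0 := by
    intro h0
    rw [h0, mul_zero] at hlog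
    exact hne hlog
  unfold wv
  rw [hlog, Nat.add_sub_cancel]
  field_simp

lemma vb_sum {M : Type} [Field M] [NumberField M] (v : FinitePlace M) {p : ℕ} (hp : p.Prime)
    (hv : v.1 (p : M) < 1) (k l : ℕ) (ζ : M) (hl : l ≤ k) (hζ : IsPrimitiveRoot ζ (p ^ k)) :
    ∑ b ∈ (range (p ^ k)).filter (fun b => b ≠ 0 ∧ p ^ k ∣ p ^ l * b), wv v.1 p (ζ ^ b - 1) = l := by
  have hpos : 0 < v.1 (p : M) := v.1.pos (by exact_mod_cast hp.ne_zero)
  have hne : Real.log (v.1 (p : M)) ≠ 0 := (Real.log_neg hpos hv).ne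
  have hpk : p ^ k = p ^ (k - l) * p ^ l := by rw [← pow_add]; congr 1; omega
  have hpl : 0 < p ^ l := pow_pos hp.pos _
  have hpkl : 0 < p ^ (k - l) := pow_pos hp.pos _
  have hζ' : IsPrimitiveRoot (ζ ^ (p ^ (k - l))) (p ^ l) :=
    hζ.pow (pow_pos hp.pos k) hpk
  obtain ⟨m, hm⟩ : ∃ m, p ^ l = m + 1 := ⟨p ^ l - 1, by omega⟩
  have hζ'' : IsPrimitiveRoot (ζ ^ (p ^ (k - l))) (m + 1) := hm ▸ hζ'
  have hprod := hζ''.prod_one_sub_pow_eq_order
  have hset : (range (p ^ k)).filter (fun b => b ≠ 0 ∧ p ^ k ∣ p ^ l * b) =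
      (range m).image (fun c => p ^ (k - l) * (c + 1)) := by
    ext b
    rw [mem_filter, mem_range, mem_image]
    constructor
    · rintro ⟨hb, hb0, hd⟩
      rw [hpk, mul_comm (p ^ (k - l)) (p ^ l)] at hd
      have hd' : p ^ (k - l) ∣ b := Nat.dvd_of_mul_dvd_mul_left hpl hd
      obtain ⟨c, rfl⟩ := hd'
      have hc0 : c ≠ 0 := by
        rintro rfl
        exact hb0 (mul_zero _)
      refine ⟨c - 1, ?_, ?_⟩
      · rw [hpk] at hb
        have := Nat.lt_of_mul_lt_mul_left hb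
        rw [mem_range]
        omega
      · have : c - 1 + 1 = c := by omega
        rw [this]
    · rintro ⟨c, hc, rfl⟩
      rw [mem_range] at hc
      refine ⟨?_, ?_, ?_⟩
      · rw [hpk]
        exact Nat.mul_lt_mul_of_pos_left (by omega) hpkl
      · positivity
      · rw [hpk, mul_comm (p ^ (k - l)) (p ^ l)]
        exact Nat.mul_dvd_mul_left _ (Dvd.intro _ rfl)
  rw [hset, sum_image (by
    intro c _ c' _ h
    have := Nat.eq_of_mul_eq_mul_left hpkl h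
    omega)]
  have hterm : ∀ c ∈ range m, wv v.1 p (ζ ^ (p ^ (k - l) * (c + 1)) - 1) =
      Real.log (v.1 (1 - (ζ ^ (p ^ (k - l))) ^ (c + 1))) / Real.log (v.1 (p : M)) := by
    intro c _
    unfold wv
    rw [pow_mul, ← v.1.map_neg, neg_sub]
  rw [sum_congr rfl hterm, ← sum_div]
  have hnz : ∀ c ∈ range m, v.1 (1 - (ζ ^ (p ^ (k - l))) ^ (c + 1)) ≠ 0 := by
    intro c hc
    rw [mem_range] at hc
    rw [v.1.ne_zero_iff, sub_ne_zero]
    intro h
    have := (hζ''.pow_eq_one_iff_dvd (c + 1)).1 h.symm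
    exact absurd (Nat.le_of_dvd (Nat.succ_pos c) this) (by omega)
  rw [← Real.log_prod hnz, ← map_prod, hprod]
  have e : ((m : M) + 1) = (p : M) ^ l := by
    rw [← Nat.cast_pow, hm]
    push_cast
    rfl
  rw [e, map_pow, Real.log_pow, mul_div_assoc, div_self hne, mul_one]

theorem pf_VB : T_VB := by
  intro M _ _ p hp v hv
  exact ⟨vb_na v, v.1.pos (by exact_mod_cast hp.ne_zero), fun x hx => vb_int v hx,
    vb_nat v hp hv, vb_root v hp hv, vb_cyc v hp hv, vb_sum v hp hv⟩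

end Pool.Agent.H67.RD
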