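import Pool.Agent.H24.RD.Targets

set_option autoImplicit false

namespace Pool.Agent.H67.RD

open Pool.Agent.H24.RD Finset NumberField IsDedekindDomain

lemma co_val {M : Type} [Field M] [NumberField M] (v : FinitePlace M) (x : M) :
    v.1 x ≤ 1 ↔ v.maximalIdeal.valuation M x ≤ 1 := by
  have h : v.1 x = ((WithZeroMulInt.toNNReal (NumberField.HeightOneSpectrum.absNorm_ne_zero
      v.maximalIdeal) (v.maximalIdeal.valuation M x) : NNReal) : ℝ) := by
    rw [← FinitePlace.norm_embedding', FinitePlace.norm_embedding_eq]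
    rfl
  rw [h, NNReal.coe_le_one]
  exact WithZeroMulInt.toNNReal_le_one_iff
    (NumberField.HeightOneSpectrum.one_lt_absNorm_nnreal v.maximalIdeal)

/-- the prime below -/
noncomputable def coUn (F M : Type) [Field F] [NumberField F] [Field M] [NumberField M]
    [Algebra F M] (Q : HeightOneSpectrum (𝓞 M)) : HeightOneSpectrum (𝓞 F) where
  asIdeal := Q.asIdeal.under (𝓞 F)
  isPrime := by
    have := Q.isPrime
    infer_instance
  ne_bot := Ideal.under_ne_bot (𝓞 F) Q.ne_bot

/-- An element of `F` which is integral at `v` has a denominator which is a unit at `v`. -/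
lemma co_den {F M : Type} [Field F] [NumberField F] [Field M] [NumberField M] [Algebra F M]
    (v : FinitePlace M) (g : F) (hg : v.1 (algebraMap F M g) ≤ 1) :
    ∃ (n d : 𝓞 F), g * (d : F) = (n : F) ∧ v.1 (algebraMap F M (d : F)) = 1 := by
  let Q := v.maximalIdeal
  let P := coUn F M Q
  have hL : Q.asIdeal.LiesOver P.asIdeal := ⟨rfl⟩
  have h1 : Q.valuation M (algebraMap F M g) ≤ 1 := (co_val v _).1 hg
  rw [← HeightOneSpectrum.valuation_liesOver M P Q g] at h1
  have he : P.asIdeal.ramificationIdx' Q.asIdeal ≠ 0 := by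
    have := Q.isPrime
    have := P.isPrime
    exact Ideal.IsDedekindDomain.ramificationIdx'_ne_zero_of_liesOver Q.asIdeal P.ne_bot
  have h2 : P.valuation F g ≤ 1 := (pow_le_one_iff he).1 h1
  obtain ⟨n, d, hnd⟩ := HeightOneSpectrum.exists_primeCompl_mul_eq_of_integer P g h2
  refine ⟨n, d.1, hnd, ?_⟩
  have h3 : (algebraMap (𝓞 F) (𝓞 M) d.1) ∉ Q.asIdeal := fun h => d.2 h
  have h4 := (FinitePlace.norm_eq_one_iff_notMem M Q (algebraMap (𝓞 F) (𝓞 M) d.1)).2 h3
  rw [FinitePlace.norm_embedding_eq] at h4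
  have e : algebraMap (𝓞 M) M (algebraMap (𝓞 F) (𝓞 M) d.1) = algebraMap F M (d.1 : F) := by
    rw [← IsScalarTower.algebraMap_apply (𝓞 F) (𝓞 M) M, IsScalarTower.algebraMap_apply (𝓞 F) F M]
  rw [e] at h4
  exact h4

theorem pf_CO (hVB : T_VB) (hABS : T_ABS) : T_CO := by
  classical
  intro F M _ _ _ _ _ _ p hp v hv x0 hx0 K y g hK hy hyg hvy s hs
  obtain ⟨hna, hp0, hint, -, -, -, -⟩ := hVB M p hp v hv
  have hg : v.1 (algebraMap F M g) ≤ 1 := by
    rw [← hyg, map_pow]
    exact pow_le_one₀ (v.1.nonneg _) hvy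
  obtain ⟨n, d, hnd, hd1⟩ := co_den v g hg
  set D : M := algebraMap F M (d : F) with hD
  have hD0 : D ≠ 0 := by
    intro h0
    rw [h0, map_zero] at hd1
    exact zero_ne_one hd1
  have hDint : IsIntegral ℤ D := (RingOfIntegers.isIntegral_coe d).algebraMap
  have hNint : IsIntegral ℤ (algebraMap F M (n : F)) :=
    (RingOfIntegers.isIntegral_coe n).algebraMap
  have hyint : IsIntegral ℤ (D * y) := by
    refine IsIntegral.of_pow hK ?_
    have e : (D * y) ^ K = D ^ (K - 1) * algebraMap F M (n : F) := by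
      rw [mul_pow, hyg, ← hnd, map_mul, ← hD]
      obtain ⟨K', rfl⟩ : ∃ K', K = K' + 1 := ⟨K - 1, by omega⟩
      rw [Nat.add_sub_cancel, pow_succ]
      ring
    rw [e]
    exact (hDint.pow _).mul hNint
  have hfix : ∀ t : M ≃ₐ[F] M, t (D * y) = D * t y := by
    intro t
    rw [map_mul, hD, AlgEquiv.commutes]
  have hs' : s (D * y) ≠ D * y := by
    rw [hfix]
    intro h
    exact hs (mul_left_cancel₀ hD0 h)
  have h1 := hABS F M v.1 hna x0 hx0 (D * y) hyint s hs'
  have hfil : univ.filter (fun t : M ≃ₐ[F] M => t (D * y) = s (D * y)) =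
      univ.filter (fun t : M ≃ₐ[F] M => t y = s y) := by
    refine filter_congr fun t _ => ?_
    rw [hfix, hfix]
    exact ⟨fun h => mul_left_cancel₀ hD0 h, fun h => by rw [h]⟩
  rw [hfil, hfix, ← mul_sub, map_mul, hd1, one_mul] at h1
  have hlog : Real.log (v.1 (p : M)) < 0 := Real.log_neg hp0 hv
  have hpos : 0 < v.1 (s y - y) := v.1.pos (sub_ne_zero.2 hs)
  have hnz : ∀ t ∈ univ.filter (fun t : M ≃ₐ[F] M => t y = s y), v.1 (t x0 - x0) ≠ 0 := by
    intro t ht
    rw [mem_filter] at ht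
    rw [v.1.ne_zero_iff, sub_ne_zero]
    intro h
    have := hx0.sep t h
    subst this
    exact hs ht.2.symm
  have h2 := Real.log_le_log hpos h1
  rw [Real.log_prod hnz] at h2
  unfold wv
  rw [← sum_div]
  exact div_le_div_of_nonpos_of_le hlog.le h2

end Pool.Agent.H67.RD
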