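import Pool.Agent.H67.RD.CO
import Pool.Agent.H67.RD.VB

set_option autoImplicit false

namespace Pool.Agent.H67.RD

open Pool.Agent.H24.RD Finset NumberField IsDedekindDomain Polynomial

section local1

variable {M : Type} [Field M] [NumberField M]

lemma cSub (a b : 𝓞 M) : ((a - b : 𝓞 M) : M) = (a : M) - (b : M) := rfl
lemma cAdd (a b : 𝓞 M) : ((a + b : 𝓞 M) : M) = (a : M) + (b : M) := rfl
lemma cMul (a b : 𝓞 M) : ((a * b : 𝓞 M) : M) = (a : M) * (b : M) := rfl

lemma gen_lt (v : FinitePlace M) (x : 𝓞 M) : v.1 (x : M) < 1 ↔ x ∈ v.maximalIdeal.asIdeal := by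
  have h := FinitePlace.norm_lt_one_iff_mem M v.maximalIdeal x
  rw [FinitePlace.norm_embedding_eq] at h
  exact h

lemma gen_le (v : FinitePlace M) (x : 𝓞 M) : v.1 (x : M) ≤ 1 := vb_int v x.2

lemma gen_one (v : FinitePlace M) (x : 𝓞 M) (h : x ∉ v.maximalIdeal.asIdeal) :
    v.1 (x : M) = 1 :=
  le_antisymm (gen_le v x) (not_lt.1 fun h' => h ((gen_lt v x).1 h'))

lemma gen_pow (v : FinitePlace M) : ∃ c : ℝ, 0 ≤ c ∧ c < 1 ∧ ∀ (k : ℕ) (z : 𝓞 M),
    z ∈ v.maximalIdeal.asIdeal ^ k → v.1 (z : M) ≤ c ^ k := by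
  have hb := NumberField.HeightOneSpectrum.one_lt_absNorm_nnreal v.maximalIdeal
  have hb0 := NumberField.HeightOneSpectrum.absNorm_ne_zero v.maximalIdeal
  refine ⟨((WithZeroMulInt.toNNReal hb0 (WithZero.exp (-1 : ℤ)) : NNReal) : ℝ),
    NNReal.coe_nonneg _, ?_, fun k z hz => ?_⟩
  · rw [← NNReal.coe_one, NNReal.coe_lt_coe]
    refine (WithZeroMulInt.toNNReal_lt_one_iff hb).2 ?_
    rw [← WithZero.exp_zero, WithZero.exp_lt_exp]
    norm_num
  · have h : v.1 (z : M) = ((WithZeroMulInt.toNNReal hb0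
        (v.maximalIdeal.valuation M (z : M)) : NNReal) : ℝ) := by
      rw [← FinitePlace.norm_embedding', FinitePlace.norm_embedding_eq]
      rfl
    have h2 : v.maximalIdeal.valuation M (z : M) = v.maximalIdeal.intValuation z :=
      HeightOneSpectrum.valuation_of_algebraMap _ _
    have h3 := (HeightOneSpectrum.intValuation_le_pow_iff_mem v.maximalIdeal z k).2 hz
    rw [h, h2, ← NNReal.coe_pow, NNReal.coe_le_coe, ← map_pow, ← WithZero.exp_nsmul]
    refine (WithZeroMulInt.toNNReal_strictMono hb).monotone ?_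
    simpa using h3

/-- Polynomials respect congruences. -/
lemma gen_congr {R : Type} [CommRing R] (I : Ideal R) {x y : R} (h : x - y ∈ I) (g : ℤ[X]) :
    aeval x g - aeval y g ∈ I := by
  have h1 := Polynomial.sub_dvd_eval_sub x y (g.map (algebraMap ℤ R))
  rw [aeval_def, aeval_def, eval₂_eq_eval_map, eval₂_eq_eval_map]
  obtain ⟨c, hc⟩ := h1
  rw [hc]
  exact I.mul_mem_right c h


/-- Step 1. -/
lemma gen_step1 (P : HeightOneSpectrum (𝓞 M)) : ∃ (x1 : 𝓞 M) (f : ℤ[X]),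
    (∀ y : 𝓞 M, ∃ g : ℤ[X], y - aeval x1 g ∈ P.asIdeal) ∧
    aeval x1 f ∈ P.asIdeal ∧ aeval x1 f ∉ P.asIdeal ^ 2 := by
  classical
  have hmax : P.asIdeal.IsMaximal := P.isMaximal
  let : Field (𝓞 M ⧸ P.asIdeal) := Ideal.Quotient.field P.asIdeal
  have : Finite (𝓞 M ⧸ P.asIdeal) := P.asIdeal.finiteQuotientOfFreeOfNeBot P.ne_bot
  have := Fintype.ofFinite (𝓞 M ⧸ P.asIdeal)
  obtain ⟨u, hu⟩ := IsCyclic.exists_generator (α := (𝓞 M ⧸ P.asIdeal)ˣ)
  obtain ⟨a, ha⟩ := Ideal.Quotient.mk_surjective (u : 𝓞 M ⧸ P.asIdeal)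
  have hsurj : ∀ x : 𝓞 M, Ideal.Quotient.mk P.asIdeal x = (u : 𝓞 M ⧸ P.asIdeal) →
      ∀ y : 𝓞 M, ∃ g : ℤ[X], y - aeval x g ∈ P.asIdeal := by
    intro x hx y
    by_cases hy : Ideal.Quotient.mk P.asIdeal y = 0
    · refine ⟨0, ?_⟩
      rw [map_zero, sub_zero]
      exact Ideal.Quotient.eq_zero_iff_mem.1 hy
    · have h1 : Units.mk0 _ hy ∈ Submonoid.powers u :=
        mem_powers_iff_mem_zpowers.2 (hu _)
      obtain ⟨n, hn⟩ := h1
      refine ⟨X ^ n, ?_⟩
      rw [map_pow, aeval_X, ← Ideal.Quotient.eq_zero_iff_mem, map_sub, map_pow, hx, sub_eq_zero]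
      have h2 := congrArg (fun w : (𝓞 M ⧸ P.asIdeal)ˣ => (w : 𝓞 M ⧸ P.asIdeal)) hn
      simp only [Units.val_pow_eq_pow_val, Units.val_mk0] at h2
      exact h2.symm
  set q := Fintype.card (𝓞 M ⧸ P.asIdeal) with hqdef
  have hq : ((q : ℕ) : 𝓞 M) ∈ P.asIdeal := by
    rw [← Ideal.Quotient.eq_zero_iff_mem, map_natCast, hqdef]
    exact Nat.cast_card_eq_zero _
  have hq1 : 1 ≤ q := Fintype.card_pos
  have hroot : ∀ x : 𝓞 M, x ^ q - x ∈ P.asIdeal := by
    intro x
    rw [← Ideal.Quotient.eq_zero_iff_mem, map_sub, map_pow, hqdef, FiniteField.pow_card, sub_self]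
  by_cases h : a ^ q - a ∈ P.asIdeal ^ 2
  · obtain ⟨π, hπ, hπ2⟩ :=
      Ideal.exists_mem_pow_notMem_pow_succ P.asIdeal P.ne_bot hmax.ne_top 1
    rw [pow_one] at hπ
    refine ⟨a + π, X ^ q - X, hsurj _ ?_, ?_, ?_⟩
    · rw [map_add, Ideal.Quotient.eq_zero_iff_mem.2 hπ, add_zero, ha]
    · rw [map_sub, map_pow, aeval_X]
      exact hroot _
    · rw [map_sub, map_pow, aeval_X]
      intro hmem
      apply hπ2
      obtain ⟨c, hc⟩ := Polynomial.powAddExpansion a π q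
      have e : π = (a ^ q - a) + (((q : ℕ) : 𝓞 M) * π) * a ^ (q - 1) + c * π ^ 2 -
          ((a + π) ^ q - (a + π)) := by
        rw [hc]
        ring
      rw [e]
      refine Ideal.sub_mem _ (Ideal.add_mem _ (Ideal.add_mem _ h ?_) ?_) hmem
      · refine Ideal.mul_mem_right _ _ ?_
        rw [pow_two]
        exact Ideal.mul_mem_mul hq hπ
      · exact Ideal.mul_mem_left _ _ (Ideal.pow_mem_pow hπ 2)
  · refine ⟨a, X ^ q - X, hsurj _ ha, ?_, ?_⟩
    · rw [map_sub, map_pow, aeval_X]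
      exact hroot _
    · rw [map_sub, map_pow, aeval_X]
      exact h

/-- Powers of a local uniformiser. -/
lemma gen_unif (P : HeightOneSpectrum (𝓞 M)) {a : 𝓞 M} (h1 : a ∈ P.asIdeal)
    (h2 : a ∉ P.asIdeal ^ 2) (k : ℕ) : a ^ k ∉ P.asIdeal ^ (k + 1) := by
  have e1 := (HeightOneSpectrum.intValuation_le_pow_iff_mem P a 1).2 (by rwa [pow_one])
  have e2 : ¬ P.intValuation a ≤ WithZero.exp (-((2 : ℕ) : ℤ)) := fun h =>
    h2 ((HeightOneSpectrum.intValuation_le_pow_iff_mem P a 2).1 h)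
  have ha0 : P.intValuation a ≠ 0 := by
    intro h0
    apply e2
    rw [h0]
    exact zero_le
  intro hk
  have e3 := (HeightOneSpectrum.intValuation_le_pow_iff_mem P (a ^ k) (k + 1)).2 hk
  rw [map_pow] at e3
  rw [← WithZero.exp_log ha0] at e1 e2 e3
  rw [WithZero.exp_le_exp] at e1 e2
  rw [← WithZero.exp_nsmul, WithZero.exp_le_exp] at e3
  have e4 : WithZero.log (P.intValuation a) = -1 := by push_cast at e1 e2; omega
  rw [e4] at e3
  simp at e3

/-- Step 3. -/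
lemma gen_step3 (P : HeightOneSpectrum (𝓞 M)) (x0 : 𝓞 M) (f : ℤ[X])
    (ha : ∀ y : 𝓞 M, ∃ g : ℤ[X], y - aeval x0 g ∈ P.asIdeal)
    (hf1 : aeval x0 f ∈ P.asIdeal) (hf2 : aeval x0 f ∉ P.asIdeal ^ 2) (k : ℕ) :
    ∀ y : 𝓞 M, ∃ g : ℤ[X], y - aeval x0 g ∈ P.asIdeal ^ k := by
  induction k with
  | zero => exact fun y => ⟨0, by simp⟩
  | succ k ih =>
    intro y
    obtain ⟨g, hg⟩ := ih y
    have := P.isPrime
    obtain ⟨c, e, he, hce⟩ := Ideal.exists_mul_add_mem_pow_succ P.ne_bot ((aeval x0 f) ^ k)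
      (y - aeval x0 g) (Ideal.pow_mem_pow hf1 k) (gen_unif P hf1 hf2 k) hg
    obtain ⟨g2, hg2⟩ := ha c
    refine ⟨g + f ^ k * g2, ?_⟩
    have e1 : y - aeval x0 (g + f ^ k * g2) = (aeval x0 f) ^ k * (c - aeval x0 g2) + e := by
      rw [map_add, map_mul, map_pow]
      linear_combination -hce
    rw [e1]
    refine Ideal.add_mem _ ?_ he
    rw [pow_succ]
    exact Ideal.mul_mem_mul (Ideal.pow_mem_pow hf1 k) hg2

/-- Step 4. -/
lemma gen_step4 (v : FinitePlace M) (x0 : 𝓞 M) (f : ℤ[X])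
    (ha : ∀ y : 𝓞 M, ∃ g : ℤ[X], y - aeval x0 g ∈ v.maximalIdeal.asIdeal)
    (hf1 : aeval x0 f ∈ v.maximalIdeal.asIdeal) (hf2 : aeval x0 f ∉ v.maximalIdeal.asIdeal ^ 2)
    (y : M) (hy : v.1 y ≤ 1) (ε : ℝ) (hε : 0 < ε) :
    ∃ Y : ℤ[X], v.1 (y - aeval (x0 : M) Y) ≤ ε := by
  obtain ⟨c, hc0, hc1, hc⟩ := gen_pow v
  obtain ⟨k, hk⟩ := exists_pow_lt_of_lt_one hε hc1
  obtain ⟨n, d, hnd⟩ := HeightOneSpectrum.exists_primeCompl_mul_eq_of_integer v.maximalIdeal y
    ((co_val v y).1 hy)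
  have hmax : v.maximalIdeal.asIdeal.IsMaximal := v.maximalIdeal.isMaximal
  have hcop : IsCoprime (Ideal.span {d.1}) (v.maximalIdeal.asIdeal ^ k) := by
    refine IsCoprime.pow_right ?_
    rw [Ideal.isCoprime_iff_exists]
    obtain ⟨w, i, hi, hwi⟩ := hmax.exists_inv (x := d.1) d.2
    exact ⟨w * d.1, Ideal.mul_mem_left _ _ (Ideal.mem_span_singleton_self _), i, hi, hwi⟩
  obtain ⟨s, hs, e, he, hse⟩ := Ideal.isCoprime_iff_exists.1 hcop
  obtain ⟨d', rfl⟩ := Ideal.mem_span_singleton'.1 hs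
  obtain ⟨g, hg⟩ := gen_step3 v.maximalIdeal x0 f ha hf1 hf2 k (n * d')
  refine ⟨g, ?_⟩
  have e1 : y - aeval (x0 : M) g = y * (e : M) + ((n * d' - aeval x0 g : 𝓞 M) : M) := by
    have h1 : aeval (x0 : M) g = ((aeval x0 g : 𝓞 M) : M) := by
      exact aeval_algebraMap_apply M x0 g
    have h2 : ((d' * d.1 + e : 𝓞 M) : M) = 1 := by rw [hse]; rfl
    have h3 : y * (d.1 : M) = (n : M) := hnd
    rw [h1]
    have h4 : ((n * d' - aeval x0 g : 𝓞 M) : M) = (n : M) * (d' : M) -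
      ((aeval x0 g : 𝓞 M) : M) := by
      rw [cSub, cMul]
    rw [h4, ← h3]
    rw [cAdd, cMul] at h2
    linear_combination (-y) * h2
  rw [e1]
  refine le_trans (vb_na v _ _) (max_le ?_ ?_)
  · rw [map_mul]
    calc v.1 y * v.1 (e : M) ≤ 1 * c ^ k :=
          mul_le_mul hy (hc k e he) (v.1.nonneg _) zero_le_one
      _ ≤ ε := by rw [one_mul]; exact hk.le
  · exact le_trans (hc k _ hg) hk.le

end local1

theorem pf_GEN : T_GEN := by
  classical
  intro F M _ _ _ _ _ p hp v hv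
  set P := v.maximalIdeal with hP
  have hmax : P.asIdeal.IsMaximal := P.isMaximal
  obtain ⟨x1, f, h1a, h1f, h1g⟩ := gen_step1 P
  let Q : (M ≃ₐ[F] M) → Ideal (𝓞 M) := fun t =>
    P.asIdeal.comap (RingOfIntegers.mapRingEquiv (t : M ≃+* M))
  have hQmem : ∀ (t : M ≃ₐ[F] M) (x : 𝓞 M), x ∈ Q t ↔ v.1 (t (x : M)) < 1 := by
    intro t x
    exact (gen_lt v (RingOfIntegers.mapRingEquiv (t : M ≃+* M) x)).symm
  have hQmax : ∀ t, (Q t).IsMaximal := fun t =>
    Ideal.comap_isMaximal_of_equiv (RingOfIntegers.mapRingEquiv (t : M ≃+* M))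
  have : FiniteDimensional F M := Module.Finite.of_restrictScalars_finite ℚ F M
  -- the element eps
  obtain ⟨ep, hep, hep1⟩ : ∃ ep : 𝓞 M, (ep = 0 ∨ ep = 1) ∧ x1 - ep ∉ P.asIdeal := by
    by_cases h : x1 ∈ P.asIdeal
    · refine ⟨1, Or.inr rfl, fun h' => ?_⟩
      have := P.asIdeal.sub_mem h h'
      rw [sub_sub_cancel] at this
      exact hmax.ne_top ((Ideal.eq_top_iff_one _).2 this)
    · exact ⟨0, Or.inl rfl, by rwa [sub_zero]⟩
  -- Chinese remainder theorem
  have hcop : IsCoprime (P.asIdeal ^ 2)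
      (∏ t ∈ univ.filter (fun t : M ≃ₐ[F] M => Q t ≠ P.asIdeal), Q t) := by
    refine IsCoprime.prod_right fun t ht => IsCoprime.pow_left ?_
    have := hQmax t
    exact Ideal.isCoprime_of_isMaximal (Ne.symm (mem_filter.1 ht).2)
  obtain ⟨a, ha, b, hb, hab⟩ := Ideal.isCoprime_iff_exists.1 hcop
  set x0 : 𝓞 M := x1 * b + ep * a with hx0
  have e1 : x0 - x1 ∈ P.asIdeal ^ 2 := by
    have : x0 - x1 = (ep - x1) * a := by
      rw [hx0]
      linear_combination x1 * hab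
    rw [this]
    exact Ideal.mul_mem_left _ _ ha
  have e1' : x0 - x1 ∈ P.asIdeal := Ideal.pow_le_self two_ne_zero e1
  have e2 : ∀ t : M ≃ₐ[F] M, Q t ≠ P.asIdeal → x0 - ep ∈ Q t := by
    intro t ht
    have : x0 - ep = (x1 - ep) * b := by
      rw [hx0]
      linear_combination ep * hab
    rw [this]
    refine Ideal.mul_mem_left _ _ ?_
    exact (Ideal.prod_le_inf.trans (Finset.inf_le (mem_filter.2 ⟨mem_univ t, ht⟩))) hb
  have e3 : x0 - ep ∉ P.asIdeal := by
    intro h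
    apply hep1
    have : x1 - ep = (x0 - ep) - (x0 - x1) := by ring
    rw [this]
    exact P.asIdeal.sub_mem h e1'
  have h0a : ∀ y : 𝓞 M, ∃ g : ℤ[X], y - aeval x0 g ∈ P.asIdeal := by
    intro y
    obtain ⟨g, hg⟩ := h1a y
    refine ⟨g, ?_⟩
    have := P.asIdeal.sub_mem hg (gen_congr P.asIdeal e1' g)
    rwa [sub_sub, add_sub_cancel] at this
  have h0f : aeval x0 f ∈ P.asIdeal := by
    have := P.asIdeal.add_mem (gen_congr P.asIdeal e1' f) h1f
    rwa [sub_add_cancel] at this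
  have h0g : aeval x0 f ∉ P.asIdeal ^ 2 := by
    intro h
    apply h1g
    have := (P.asIdeal ^ 2).sub_mem h (gen_congr _ e1 f)
    rwa [sub_sub_cancel] at this
  have hden : ∀ y : M, v.1 y ≤ 1 → ∀ ε : ℝ, 0 < ε → ∃ Y : ℤ[X],
      v.1 (y - aeval (x0 : M) Y) ≤ ε := fun y hy ε hε =>
    gen_step4 v x0 f h0a h0f h0g y hy ε hε
  have hpp : 0 < v.1 (p : M) := v.1.pos (by exact_mod_cast hp.ne_zero)
  have hdec : ∀ t : M ≃ₐ[F] M, (∀ x, v.1 (t x) = v.1 x) ∨ v.1 (t (x0 : M) - (x0 : M)) = 1 := by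
    intro t
    by_cases ht : Q t = P.asIdeal
    · left
      let w : AbsoluteValue M ℝ := v.1.comp (f := (t : M →+* M)) t.injective
      have hw : ∀ x, w x = v.1 (t x) := fun x => rfl
      have hnt : v.1.IsNontrivial := ⟨(p : M), by exact_mod_cast hp.ne_zero, hv.ne⟩
      have himp : ∀ x, v.1 x < 1 → w x < 1 := by
        intro x hx
        obtain ⟨n, d, hnd⟩ := HeightOneSpectrum.exists_primeCompl_mul_eq_of_integer P x
          ((co_val v x).1 hx.le)
        have hnd' : x * (d.1 : M) = (n : M) := hnd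
        have hd1 : v.1 (d.1 : M) = 1 := gen_one v d.1 d.2
        have hn : n ∈ P.asIdeal := by
          rw [← gen_lt v n, ← hnd', map_mul, hd1, mul_one]
          exact hx
        rw [← ht, hQmem, ← hnd', map_mul, map_mul] at hn
        have hd2 : v.1 (t (d.1 : M)) = 1 := by
          have hd : ¬ v.1 (t (d.1 : M)) < 1 := by
            rw [← hQmem, ht]
            exact d.2
          refine le_antisymm ?_ (not_lt.1 hd)
          exact gen_le v (RingOfIntegers.mapRingEquiv (t : M ≃+* M) d.1)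
        rw [hd2, mul_one] at hn
        exact hn
      obtain ⟨c, hc, hcw⟩ := AbsoluteValue.isEquiv_iff_exists_rpow_eq.1
        (AbsoluteValue.isEquiv_of_lt_one_imp hnt himp)
      have hcw' : ∀ x, v.1 x ^ c = w x := fun x => congrFun hcw x
      have hp1 := hcw' (p : M)
      rw [hw, map_natCast t] at hp1
      have hc1 : c = 1 := by
        have h2 := congrArg Real.log hp1
        rw [Real.log_rpow hpp] at h2
        have h3 : Real.log (v.1 (p : M)) ≠ 0 := (Real.log_neg hpp hv).ne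
        exact mul_right_cancel₀ h3 (by rw [h2, one_mul])
      intro x
      rw [← hw, ← hcw', hc1, Real.rpow_one]
    · right
      have h2 := e2 t ht
      rw [hQmem] at h2
      have hte : t (ep : M) = (ep : M) := by
        rcases hep with rfl | rfl
        · simp
        · simp
      have h3 : v.1 (t (x0 : M) - (ep : M)) < 1 := by
        have : t ((x0 - ep : 𝓞 M) : M) = t (x0 : M) - (ep : M) := by
          rw [cSub, map_sub, hte]
        rwa [this] at h2
      have h4 : v.1 ((x0 : M) - (ep : M)) = 1 := by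
        have := gen_one v (x0 - ep) e3
        rwa [cSub] at this
      have hle : v.1 (t (x0 : M) - (x0 : M)) ≤ 1 := by
        have := gen_le v (RingOfIntegers.mapRingEquiv (t : M ≃+* M) x0 - x0)
        rwa [cSub] at this
      refine le_antisymm hle ?_
      by_contra hlt
      rw [not_le] at hlt
      have h5 : (x0 : M) - (ep : M) = (t (x0 : M) - (ep : M)) + -(t (x0 : M) - (x0 : M)) := by
        ring
      have h6 := vb_na v (t (x0 : M) - (ep : M)) (-(t (x0 : M) - (x0 : M)))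
      rw [← h5, h4, v.1.map_neg] at h6
      exact absurd h6 (not_le.2 (max_lt h3 hlt))
  refine ⟨(x0 : M), ⟨x0.2, hdec, hden, ?_⟩⟩
  intro t ht
  have hvt : ∀ x, v.1 (t x) = v.1 x := by
    rcases hdec t with h | h
    · exact h
    · rw [ht, sub_self, map_zero] at h
      exact absurd h zero_ne_one
  have hfix : ∀ y : M, v.1 y ≤ 1 → t y = y := by
    intro y hy
    have h0 : v.1 (t y - y) ≤ 0 := by
      refine le_of_forall_pos_le_add fun ε hε => ?_
      obtain ⟨Y, hY⟩ := hden y hy ε hε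
      have hYt : t (aeval (x0 : M) Y) = aeval (x0 : M) Y := by
        have h := Polynomial.aeval_algHom_apply ((t : M →ₐ[F] M).restrictScalars ℤ) (x0 : M) Y
        have h' : ((t : M →ₐ[F] M).restrictScalars ℤ) (x0 : M) = (x0 : M) := ht
        rw [h'] at h
        exact h.symm
      have e : t y - y = t (y - aeval (x0 : M) Y) + -(y - aeval (x0 : M) Y) := by
        rw [map_sub, hYt]
        ring
      rw [e, zero_add]
      refine le_trans (vb_na v _ _) (max_le ?_ ?_)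
      · rw [hvt]
        exact hY
      · rw [v.1.map_neg]
        exact hY
    have h1 : v.1 (t y - y) = 0 := le_antisymm h0 (v.1.nonneg _)
    exact sub_eq_zero.1 (v.1.eq_zero.1 h1)
  ext y
  rw [AlgEquiv.one_apply]
  by_cases hy : v.1 y ≤ 1
  · exact hfix y hy
  · have hy' : v.1 y⁻¹ ≤ 1 := by
      rw [map_inv₀]
      exact inv_le_one_of_one_le₀ (not_le.1 hy).le
    have := hfix y⁻¹ hy'
    rw [map_inv₀] at this
    exact inv_injective this

end Pool.Agent.H67.RD
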