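import Pool.Agent.H24.RD.Targets

set_option autoImplicit false

namespace Pool.Agent.H67.RD

open Pool.Agent.H24.RD Finset

lemma pow_nat_le {M : Type} [Field M] {v : AbsoluteValue M ℝ} (hv : IsNonarchimedean v) (n : ℕ) :
    v (n : M) ≤ 1 := by
  induction n with
  | zero => simp
  | succ n ih =>
    rw [Nat.cast_succ]
    refine le_trans (hv _ _) (max_le ih ?_)
    simp

/-- One `p`-th power. -/
lemma pow_step {M : Type} [Field M] {v : AbsoluteValue M ℝ} (hv : IsNonarchimedean v) {p : ℕ}
    (hp : p.Prime) {a b : M} (ha : v a ≤ 1) (hb : v b ≤ 1) :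
    v (a ^ p - b ^ p) ≤ max (v (a - b) ^ p) (v (p : M) * v (a - b)) := by
  have hd : v (a - b) ≤ 1 := by
    have h := hv a (-b)
    rw [← sub_eq_add_neg, v.map_neg] at h
    exact le_trans h (max_le ha hb)
  have h1 : a ^ p - b ^ p = (a - b) ^ p + (p : M) * (a - b) *
      (b * ∑ k ∈ Ioo 0 p, (a - b) ^ (k - 1) * b ^ (p - k - 1) * ((p.choose k / p : ℕ) : M)) := by
    have h := add_pow_prime_eq hp (a - b) b
    rw [sub_add_cancel] at h
    rw [h]
    ring
  rw [h1]
  refine le_trans (hv _ _) (max_le_max ?_ ?_)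
  · rw [map_pow]
  · rw [map_mul, map_mul, map_mul]
    have h2 : v (∑ k ∈ Ioo 0 p, (a - b) ^ (k - 1) * b ^ (p - k - 1) * ((p.choose k / p : ℕ) : M))
        ≤ 1 := by
      refine Finset.sum_induction _ (fun x => v x ≤ 1)
        (fun x y hx hy => le_trans (hv x y) (max_le hx hy)) (by simp) ?_
      intro k _
      rw [map_mul, map_mul, map_pow, map_pow]
      have e1 : v (a - b) ^ (k - 1) ≤ 1 := pow_le_one₀ (v.nonneg _) hd
      have e2 : v b ^ (p - k - 1) ≤ 1 := pow_le_one₀ (v.nonneg _) hb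
      have e3 := pow_nat_le hv (p.choose k / p)
      exact mul_le_one₀ (mul_le_one₀ e1 (by positivity) e2) (v.nonneg _) e3
    have h3 : v b * v (∑ k ∈ Ioo 0 p, (a - b) ^ (k - 1) * b ^ (p - k - 1) *
        ((p.choose k / p : ℕ) : M)) ≤ 1 := mul_le_one₀ hb (v.nonneg _) h2
    exact mul_le_of_le_one_right (mul_nonneg (v.nonneg _) (v.nonneg _)) h3

/-- The integral case. -/
lemma pow_int {M : Type} [Field M] {v : AbsoluteValue M ℝ} (hv : IsNonarchimedean v) {p : ℕ}
    (hp : p.Prime) (hq0 : 0 < v (p : M)) (hq : v (p : M) < 1) {T : ℕ} (hT : 1 ≤ T) {a b : M}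
    (ha : v a ≤ 1) (hb : v b ≤ 1) (h : v (a - b) ≤ v (p : M) ^ (1 / (T : ℝ))) (l : ℕ) :
    v (a ^ (p ^ (T + l)) - b ^ (p ^ (T + l))) ≤ v (p : M) ^ l := by
  have hT0 : (0 : ℝ) < T := by exact_mod_cast hT
  -- general step
  have step : ∀ (j : ℕ) (s c : ℝ), 0 ≤ s → c ≤ 1 → c ≤ s →
      v (a ^ (p ^ j) - b ^ (p ^ j)) ≤ v (p : M) ^ s →
      v (a ^ (p ^ (j + 1)) - b ^ (p ^ (j + 1))) ≤ v (p : M) ^ (s + c) := by
    intro j s c hs hc1 hcs hj
    have ha' : v (a ^ (p ^ j)) ≤ 1 := by
      rw [map_pow]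
      exact pow_le_one₀ (v.nonneg _) ha
    have hb' : v (b ^ (p ^ j)) ≤ 1 := by
      rw [map_pow]
      exact pow_le_one₀ (v.nonneg _) hb
    have h1 := pow_step hv hp ha' hb'
    rw [← pow_mul, ← pow_mul, ← pow_succ] at h1
    refine le_trans h1 (max_le ?_ ?_)
    · calc v (a ^ p ^ j - b ^ p ^ j) ^ p ≤ (v (p : M) ^ s) ^ p :=
            pow_le_pow_left₀ (v.nonneg _) hj p
        _ = v (p : M) ^ (s * p) := by
            rw [← Real.rpow_natCast, ← Real.rpow_mul (v.nonneg _)]
        _ ≤ v (p : M) ^ (s + c) := by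
            refine Real.rpow_le_rpow_of_exponent_ge hq0 hq.le ?_
            have : (2 : ℝ) ≤ p := by exact_mod_cast hp.two_le
            nlinarith
    · calc v (p : M) * v (a ^ p ^ j - b ^ p ^ j) ≤ v (p : M) * v (p : M) ^ s :=
            mul_le_mul_of_nonneg_left hj (v.nonneg _)
        _ = v (p : M) ^ (s + 1) := by
            rw [Real.rpow_add hq0, Real.rpow_one, mul_comm]
        _ ≤ v (p : M) ^ (s + c) :=
            Real.rpow_le_rpow_of_exponent_ge hq0 hq.le (by linarith)
  have h1 : ∀ j : ℕ, v (a ^ (p ^ j) - b ^ (p ^ j)) ≤ v (p : M) ^ (((j : ℝ) + 1) / T) := by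
    intro j
    induction j with
    | zero => simpa using h
    | succ j ih =>
      have := step j (((j : ℝ) + 1) / T) (1 / T) (by positivity)
        (by rw [div_le_one hT0]; exact_mod_cast hT)
        (by
          apply div_le_div_of_nonneg_right _ hT0.le
          have : (0 : ℝ) ≤ j := Nat.cast_nonneg _
          linarith) ih
      rw [Nat.cast_succ, add_div ((j : ℝ) + 1)]
      exact this
  have h2 : ∀ i : ℕ, v (a ^ (p ^ (T + i)) - b ^ (p ^ (T + i))) ≤ v (p : M) ^ ((i : ℝ) + 1) := by
    intro i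
    induction i with
    | zero =>
      refine le_trans (h1 T) ?_
      refine Real.rpow_le_rpow_of_exponent_ge hq0 hq.le ?_
      rw [le_div_iff₀ hT0]
      simp
    | succ i ih =>
      have := step (T + i) ((i : ℝ) + 1) 1 (by positivity) le_rfl
        (by
          have : (0 : ℝ) ≤ i := Nat.cast_nonneg _
          linarith) ih
      rw [Nat.cast_succ]
      exact this
  refine le_trans (h2 l) ?_
  rw [← Real.rpow_natCast]
  exact Real.rpow_le_rpow_of_exponent_ge hq0 hq.le (by linarith)

theorem pf_POW : T_POW := by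
  intro M _ _ v hv p hp hq T hT a b h l
  have hq0 : 0 < v (p : M) := v.pos (by exact_mod_cast hp.ne_zero)
  have hT0 : (0 : ℝ) < T := by exact_mod_cast hT
  have hlt : v (p : M) ^ (1 / (T : ℝ)) < 1 := Real.rpow_lt_one hq0.le hq (by positivity)
  have hql : (0 : ℝ) ≤ v (p : M) ^ l := by positivity
  have hne : ∀ x y : M, 1 < v x → v y ≤ 1 → v x ≤ v (x - y) := by
    intro x y hx hy
    have h1 := hv (x - y) y
    rw [sub_add_cancel] at h1
    rcases le_max_iff.1 h1 with h2 | h2
    · exact h2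
    · exact absurd (le_trans h2 hy) (not_le.2 hx)
  by_cases ha : v a ≤ 1
  · by_cases hb : v b ≤ 1
    · rw [max_eq_right ha, max_eq_right hb, mul_one, mul_one] at h
      refine le_trans (pow_int hv hp hq0 hq hT ha hb h l) ?_
      have : (1 : ℝ) ≤ max (v (a ^ (p ^ (T + l)))) 1 * max (v (b ^ (p ^ (T + l)))) 1 :=
        one_le_mul_of_one_le_of_one_le (le_max_right _ _) (le_max_right _ _)
      exact le_mul_of_one_le_right hql this
    · exfalso
      rw [not_le] at hb
      rw [max_eq_right ha, max_eq_left hb.le, one_mul] at h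
      have h1 := hne b a hb ha
      rw [← v.map_neg (b - a), neg_sub] at h1
      have h2 : v (p : M) ^ (1 / (T : ℝ)) * v b < v b := by
        have := mul_lt_mul_of_pos_right hlt (lt_trans one_pos hb)
        rwa [one_mul] at this
      linarith
  · rw [not_le] at ha
    by_cases hb : v b ≤ 1
    · exfalso
      rw [max_eq_right hb, max_eq_left ha.le, mul_one] at h
      have h1 := hne a b ha hb
      have h2 : v (p : M) ^ (1 / (T : ℝ)) * v a < v a := by
        have := mul_lt_mul_of_pos_right hlt (lt_trans one_pos ha)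
        rwa [one_mul] at this
      linarith
    · rw [not_le] at hb
      have ha0 : a ≠ 0 := by
        rintro rfl
        simp at ha
        linarith
      have hb0 : b ≠ 0 := by
        rintro rfl
        simp at hb
        linarith
      have hva : 0 < v a := lt_trans one_pos ha
      have hvb : 0 < v b := lt_trans one_pos hb
      rw [max_eq_left ha.le, max_eq_left hb.le] at h
      have hinv : v (a⁻¹ - b⁻¹) ≤ v (p : M) ^ (1 / (T : ℝ)) := by
        have e : a - b = -((a⁻¹ - b⁻¹) * (a * b)) := by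
          field_simp
          ring
        rw [e, v.map_neg, map_mul, map_mul] at h
        exact le_of_mul_le_mul_right h (mul_pos hva hvb)
      have hai : v a⁻¹ ≤ 1 := by
        rw [map_inv₀]
        exact inv_le_one_of_one_le₀ ha.le
      have hbi : v b⁻¹ ≤ 1 := by
        rw [map_inv₀]
        exact inv_le_one_of_one_le₀ hb.le
      have h3 := pow_int hv hp hq0 hq hT hai hbi hinv l
      generalize p ^ (T + l) = N at h3 ⊢
      have e : a ^ N - b ^ N = -(((a⁻¹) ^ N - (b⁻¹) ^ N) * (a ^ N * b ^ N)) := by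
        have e1 : (a⁻¹) ^ N * a ^ N = 1 := by rw [← mul_pow, inv_mul_cancel₀ ha0, one_pow]
        have e2 : (b⁻¹) ^ N * b ^ N = 1 := by rw [← mul_pow, inv_mul_cancel₀ hb0, one_pow]
        calc a ^ N - b ^ N = -(((a⁻¹) ^ N * a ^ N) * b ^ N - ((b⁻¹) ^ N * b ^ N) * a ^ N) := by
              rw [e1, e2]; ring
          _ = _ := by ring
      rw [e, v.map_neg, map_mul, map_mul v (a ^ N)]
      refine mul_le_mul h3 ?_ (by positivity) hql
      exact mul_le_mul (le_max_left _ _) (le_max_left _ _) (v.nonneg _)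
        (le_trans (v.nonneg _) (le_max_left _ _))

end Pool.Agent.H67.RD
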