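import Pool.Agent.H91.RD.Targets

/-! # MP_609556_an, module BS3: shooting. helper67 -/

open MeasureTheory Set Filter Topology Metric

namespace Pool.Agent.H67.RD

open Pool.Agent.H91.RD

theorem lip_cont {f : ℝ → ℝ} {K : ℝ} (h : Lip f K) : Continuous f := by
  have hK : (0 : ℝ) ≤ K := h.K0.le
  have : LipschitzWith ⟨K, hK⟩ f := by
    apply LipschitzWith.of_dist_le_mul
    intro a b
    rw [Real.dist_eq, Real.dist_eq]
    exact h.lip a b
  exact this.continuous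

/-- for `c = 0` the solution at `1` is the integral of `f` -/
theorem y0_one {f : ℝ → ℝ} {K : ℝ} (h : Lip f K) {y : ℝ → ℝ} (hy : IsY f 0 y) :
    y 1 = ∫ s in (0 : ℝ)..1, f s := by
  obtain ⟨h0, hc, hd⟩ := hy
  have h1 : ∫ τ in (0 : ℝ)..1, f (1 - τ) = y 1 - y 0 := by
    apply intervalIntegral.integral_eq_sub_of_hasDerivAt_of_le zero_le_one hc
    · intro τ hτ
      have := hd τ hτ
      simpa using this
    · exact ((lip_cont h).comp (continuous_const.sub continuous_id)).intervalIntegrable _ _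
  rw [h0, sub_zero, intervalIntegral.integral_comp_sub_left (fun s => f s) 1] at h1
  rw [← h1]
  norm_num

/-- on `[1-θ, 1]` the solution is antitone -/
theorem y_antitone {f : ℝ → ℝ} {c θ : ℝ} {y : ℝ → ℝ} (hc : 0 ≤ c) (hθ1 : θ < 1)
    (hneg : ∀ s ∈ Icc 0 θ, f s ≤ 0) (hy : IsY f c y) : AntitoneOn y (Icc (1 - θ) 1) := by
  obtain ⟨h0, hcont, hd⟩ := hy
  have hsub : Icc (1 - θ) 1 ⊆ Icc (0 : ℝ) 1 := Icc_subset_Icc_left (by linarith)
  have hint : interior (Icc (1 - θ) (1 : ℝ)) = Ioo (1 - θ) 1 := interior_Icc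
  have hd2 : ∀ τ ∈ Ioo (1 - θ) (1 : ℝ), HasDerivAt y (f (1 - τ) - c * √(2 * max (y τ) 0)) τ :=
    fun τ hτ => hd τ ⟨by linarith [hτ.1], hτ.2⟩
  apply antitoneOn_of_deriv_nonpos (convex_Icc _ _) (hcont.mono hsub)
  · rw [hint]
    exact fun τ hτ => (hd2 τ hτ).differentiableAt.differentiableWithinAt
  · rw [hint]
    intro τ hτ
    rw [(hd2 τ hτ).deriv]
    have h1 : f (1 - τ) ≤ 0 := hneg _ ⟨by linarith [hτ.2], by linarith [hτ.1]⟩
    have h2 : 0 ≤ c * √(2 * max (y τ) 0) := by positivity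
    linarith

/-- the lower bound for `√(2y)` -/
theorem sqrt_lower {f : ℝ → ℝ} {c θ : ℝ} {y : ℝ → ℝ} (hc : 0 ≤ c) (hθ1 : θ < 1)
    (hneg : ∀ s ∈ Icc 0 θ, f s ≤ 0) (hy : IsY f c y) (hy1 : 0 < y 1) :
    ∀ τ ∈ Icc (1 - θ) 1, c * (1 - τ) ≤ √(2 * y τ) := by
  have hanti := y_antitone hc hθ1 hneg hy
  obtain ⟨h0, hcont, hd⟩ := hy
  intro τ0 hτ0
  have h1m : (1 : ℝ) ∈ Icc (1 - θ) 1 := ⟨hτ0.1.trans hτ0.2, le_rfl⟩
  have hpos : ∀ τ ∈ Icc (1 - θ) (1 : ℝ), 0 < y τ := fun τ hτ =>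
    lt_of_lt_of_le hy1 (hanti hτ h1m hτ.2)
  have hsub : Icc (1 - θ) 1 ⊆ Icc (0 : ℝ) 1 := Icc_subset_Icc_left (by linarith)
  have hq : AntitoneOn (fun τ => √(2 * y τ) + c * τ) (Icc (1 - θ) 1) := by
    have hint : interior (Icc (1 - θ) (1 : ℝ)) = Ioo (1 - θ) 1 := interior_Icc
    have hd2 : ∀ τ ∈ Ioo (1 - θ) (1 : ℝ),
        HasDerivAt (fun τ => √(2 * y τ) + c * τ)
          ((2 * (f (1 - τ) - c * √(2 * max (y τ) 0))) / (2 * √(2 * y τ)) + c) τ := by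
      intro τ hτ
      have h1 := (hd τ ⟨by linarith [hτ.1], hτ.2⟩).const_mul 2
      have h2 := hpos τ ⟨hτ.1.le, hτ.2.le⟩
      have h3 := (h1.sqrt (by positivity)).add ((hasDerivAt_id τ).const_mul c)
      rw [mul_one] at h3
      exact h3
    apply antitoneOn_of_deriv_nonpos (convex_Icc _ _)
    · apply ContinuousOn.add
      · exact ((hcont.mono hsub).const_mul 2).sqrt
      · exact (continuous_const.mul continuous_id).continuousOn
    · rw [hint]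
      exact fun τ hτ => (hd2 τ hτ).differentiableAt.differentiableWithinAt
    · rw [hint]
      intro τ hτ
      rw [(hd2 τ hτ).deriv]
      have h1 : f (1 - τ) ≤ 0 := hneg _ ⟨by linarith [hτ.2], by linarith [hτ.1]⟩
      have h2 := hpos τ ⟨hτ.1.le, hτ.2.le⟩
      have h3 : 0 < √(2 * y τ) := Real.sqrt_pos.mpr (by positivity)
      rw [max_eq_left h2.le]
      have h4 : (2 * (f (1 - τ) - c * √(2 * y τ))) / (2 * √(2 * y τ)) + c
          = f (1 - τ) / √(2 * y τ) := by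
        field_simp
        ring
      rw [h4]
      exact div_nonpos_of_nonpos_of_nonneg h1 h3.le
  have h2 := hq hτ0 h1m hτ0.2
  simp only at h2
  have h3 := Real.sqrt_nonneg (2 * y 1)
  linarith

/-- positivity on `(0, 1-θ)` -/
theorem pos_left {f : ℝ → ℝ} {c θ : ℝ} {y : ℝ → ℝ} (hθ0 : 0 < θ) (hθ1 : θ < 1)
    (hpos : ∀ s ∈ Ioo θ 1, 0 < f s) (hy : IsY f c y) : ∀ τ ∈ Ioo 0 (1 - θ), 0 < y τ := by
  obtain ⟨h0, hcont, hd⟩ := hy
  -- nonnegativity
  have hnn : ∀ τ ∈ Ioo 0 (1 - θ), 0 ≤ y τ := by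
    intro τ1 hτ1
    by_contra hneg
    push Not at hneg
    set S : Set ℝ := {τ | τ ∈ Icc 0 τ1 ∧ 0 ≤ y τ} with hS
    have hsub1 : Icc 0 τ1 ⊆ Icc (0 : ℝ) 1 := Icc_subset_Icc_right (by linarith [hτ1.2])
    have hScl : IsClosed S := by
      have : S = Icc 0 τ1 ∩ y ⁻¹' Ici 0 := by
        ext τ; simp [hS]
      rw [this]
      exact (hcont.mono hsub1).preimage_isClosed_of_isClosed isClosed_Icc isClosed_Ici
    have h0S : (0 : ℝ) ∈ S := ⟨⟨le_rfl, hτ1.1.le⟩, by rw [h0]⟩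
    have hbdd : BddAbove S := ⟨τ1, fun τ hτ => hτ.1.2⟩
    have hmem : sSup S ∈ S := hScl.csSup_mem ⟨0, h0S⟩ hbdd
    set τ2 := sSup S with hτ2
    have hlt : τ2 < τ1 := by
      rcases lt_or_eq_of_le hmem.1.2 with h | h
      · exact h
      · rw [h] at hmem
        exact absurd hmem.2 (not_le.mpr hneg)
    have hyneg : ∀ τ ∈ Ioo τ2 τ1, y τ < 0 := by
      intro τ hτ
      by_contra hcon
      push Not at hcon
      have : τ ∈ S := ⟨⟨by linarith [hmem.1.1, hτ.1], hτ.2.le⟩, hcon⟩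
      exact absurd (le_csSup hbdd this) (not_le.mpr hτ.1)
    have hmono : MonotoneOn y (Icc τ2 τ1) := by
      have hint : interior (Icc τ2 τ1) = Ioo τ2 τ1 := interior_Icc
      have hsub : Icc τ2 τ1 ⊆ Icc (0 : ℝ) 1 :=
        Icc_subset_Icc hmem.1.1 (by linarith [hτ1.2])
      have hd2 : ∀ τ ∈ Ioo τ2 τ1, HasDerivAt y (f (1 - τ) - c * √(2 * max (y τ) 0)) τ :=
        fun τ hτ => hd τ ⟨by linarith [hmem.1.1, hτ.1], by linarith [hτ.2, hτ1.2]⟩
      apply monotoneOn_of_deriv_nonneg (convex_Icc _ _) (hcont.mono hsub)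
      · rw [hint]
        exact fun τ hτ => (hd2 τ hτ).differentiableAt.differentiableWithinAt
      · rw [hint]
        intro τ hτ
        rw [(hd2 τ hτ).deriv, max_eq_right (hyneg τ hτ).le, mul_zero, Real.sqrt_zero, mul_zero,
          sub_zero]
        exact (hpos _ ⟨by linarith [hτ.2, hτ1.2], by linarith [hmem.1.1, hτ.1]⟩).le
    have := hmono (left_mem_Icc.mpr hlt.le) (right_mem_Icc.mpr hlt.le) hlt.le
    linarith [hmem.2]
  intro τ1 hτ1
  rcases lt_or_eq_of_le (hnn τ1 hτ1) with h | h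
  · exact h
  · exfalso
    have hmin : IsLocalMin y τ1 := by
      filter_upwards [Ioo_mem_nhds hτ1.1 hτ1.2] with τ hτ
      rw [← h]
      exact hnn τ hτ
    have hd1 := hd τ1 ⟨hτ1.1, by linarith [hτ1.2]⟩
    have h1 := hmin.hasDerivAt_eq_zero hd1
    rw [← h, max_self, mul_zero, Real.sqrt_zero, mul_zero, sub_zero] at h1
    have h2 := hpos (1 - τ1) ⟨by linarith [hτ1.2], by linarith [hτ1.1]⟩
    linarith

theorem bs3 (bs1 : T_BS1) (bs2 : T_BS2) : T_BS3 := by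
  intro f K θ hf hθ0 hθ1 hneg hpos hint
  have hY : ∀ c : ℝ, ∃ y, 0 ≤ c → IsY f c y := by
    intro c
    by_cases hc : 0 ≤ c
    · obtain ⟨y, hy⟩ := bs1 f K c hf hc
      exact ⟨y, fun _ => hy⟩
    · exact ⟨fun _ => 0, fun h => absurd h hc⟩
  choose Y hY using hY
  set A : Set ℝ := {c | 0 ≤ c ∧ 0 < Y c 1} with hA
  have h0A : (0 : ℝ) ∈ A := by
    refine ⟨le_rfl, ?_⟩
    rw [y0_one hf (hY 0 le_rfl)]
    exact hint
  have h1θ : (1 - θ) ∈ Icc (0 : ℝ) 1 := ⟨by linarith, by linarith⟩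
  have hbdd : BddAbove A := by
    refine ⟨√(2 * Y 0 (1 - θ)) / θ, ?_⟩
    rintro c ⟨hc, hc1⟩
    have h1 := sqrt_lower hc hθ1 hneg (hY c hc) hc1 (1 - θ) ⟨le_rfl, by linarith⟩
    have h2 := (bs2 f K hf 0 c (Y 0) (Y c) le_rfl hc (hY 0 le_rfl) (hY c hc) (1 - θ) h1θ).1
    rw [le_div_iff₀ hθ0]
    have h3 : √(2 * Y c (1 - θ)) ≤ √(2 * Y 0 (1 - θ)) := Real.sqrt_le_sqrt (by linarith)
    have h4 : c * (1 - (1 - θ)) = c * θ := by ring
    linarith
  set c : ℝ := sSup A with hc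
  have hc0 : 0 ≤ c := le_csSup hbdd h0A
  have hcl : c ∈ closure A := csSup_mem_closure ⟨0, h0A⟩ hbdd
  have key : ∀ τ ∈ Icc (1 - θ) (1 : ℝ), (c * (1 - τ)) ^ 2 ≤ 2 * Y c τ := by
    intro τ hτ
    have hτ' : τ ∈ Icc (0 : ℝ) 1 := ⟨by linarith [hτ.1], hτ.2⟩
    have hclosed : IsClosed {a : ℝ | (a * (1 - τ)) ^ 2 - 2 * ((c - a) * √(2 * K)) ≤ 2 * Y c τ} :=
      isClosed_le (by fun_prop) continuous_const
    have hsub : A ⊆ {a : ℝ | (a * (1 - τ)) ^ 2 - 2 * ((c - a) * √(2 * K)) ≤ 2 * Y c τ} := by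
      rintro a ⟨ha, ha1⟩
      have h1 := sqrt_lower ha hθ1 hneg (hY a ha) ha1 τ hτ
      have h2 := (bs2 f K hf a c (Y a) (Y c) ha (le_csSup hbdd ⟨ha, ha1⟩) (hY a ha) (hY c hc0)
        τ hτ').2
      have h3 : 0 < Y a τ := lt_of_lt_of_le ha1
        (y_antitone ha hθ1 hneg (hY a ha) hτ ⟨hτ.1.trans hτ.2, le_rfl⟩ hτ.2)
      have h4 : (a * (1 - τ)) ^ 2 ≤ 2 * Y a τ := by
        have h5 : 0 ≤ a * (1 - τ) := mul_nonneg ha (by linarith [hτ.2])
        have h6 := pow_le_pow_left₀ h5 h1 2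
        rwa [Real.sq_sqrt (by positivity)] at h6
      simp only [mem_setOf_eq]
      linarith
    have h1 := (hclosed.closure_subset_iff.mpr hsub) hcl
    simp only [mem_setOf_eq, sub_self, zero_mul, mul_zero, sub_zero] at h1
    exact h1
  have hy1 : Y c 1 = 0 := by
    have h1 := key 1 ⟨by linarith, le_rfl⟩
    simp only [sub_self, mul_zero, ne_eq, OfNat.ofNat_ne_zero, not_false_eq_true, zero_pow] at h1
    by_contra hne
    have h2 : 0 < Y c 1 := lt_of_le_of_ne (by linarith) (Ne.symm hne)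
    set ε : ℝ := Y c 1 / (2 * (√(2 * K) + 1)) with hε
    have hs : 0 ≤ √(2 * K) := Real.sqrt_nonneg _
    have hε0 : 0 < ε := by positivity
    have h3 := (bs2 f K hf c (c + ε) (Y c) (Y (c + ε)) hc0 (by linarith) (hY c hc0)
      (hY (c + ε) (by linarith)) 1 ⟨zero_le_one, le_rfl⟩).2
    have h4 : ε * √(2 * K) < Y c 1 := by
      have h5 : ε * (2 * (√(2 * K) + 1)) = Y c 1 := by
        rw [hε]; field_simp
      nlinarith
    have h6 : 0 < Y (c + ε) 1 := by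
      have : (c + ε - c) = ε := by ring
      rw [this] at h3
      linarith
    have h7 : c + ε ≤ c := le_csSup hbdd ⟨by linarith, h6⟩
    linarith
  have hcpos : 0 < c := by
    rcases lt_or_eq_of_le hc0 with h | h
    · exact h
    · rw [← h] at hy1
      rw [y0_one hf (hY 0 le_rfl)] at hy1
      linarith
  have hsq : ∀ τ ∈ Icc (1 - θ) (1 : ℝ), c * (1 - τ) ≤ √(2 * Y c τ) := by
    intro τ hτ
    apply Real.le_sqrt_of_sq_le
    exact key τ hτ
  refine ⟨c, Y c, hcpos, hY c hc0, hy1, ?_, hsq⟩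
  intro τ hτ
  rcases lt_or_ge τ (1 - θ) with h | h
  · exact pos_left hθ0 hθ1 hpos (hY c hc0) τ ⟨hτ.1, h⟩
  · have h1 := key τ ⟨h, hτ.2.le⟩
    have h2 : 0 < c * (1 - τ) := mul_pos hcpos (by linarith [hτ.2])
    have h3 : 0 < (c * (1 - τ)) ^ 2 := by positivity
    linarith

end Pool.Agent.H67.RD
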