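import Pool.Agent.H91.RD.Targets
import Pool.Agent.H67.RD.BS3

/-! # MP_609556_an, module BS4: the profile of the front. helper67 -/

open MeasureTheory Set Filter Topology Metric

namespace Pool.Agent.H67.RD

open Pool.Agent.H91.RD

section profile
variable {f : ℝ → ℝ} {K c : ℝ} {y : ℝ → ℝ}

/-- the phase plane function `p(v) = √(2 y(1-v))` -/
noncomputable def pp (y : ℝ → ℝ) (v : ℝ) : ℝ := √(2 * y (1 - v))

theorem abs_f_le (hf : Lip f K) (v : ℝ) : |f v| ≤ K * |v| := by
  have := hf.lip v 0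
  rwa [hf.f0, sub_zero, sub_zero] at this

theorem abs_f_le' (hf : Lip f K) (v : ℝ) : |f v| ≤ K * |1 - v| := by
  have := hf.lip v 1
  rw [hf.f1, sub_zero] at this
  rwa [abs_sub_comm v 1] at this

theorem pp_cont (hy : IsY f c y) : ContinuousOn (pp y) (Icc 0 1) := by
  unfold pp
  apply ContinuousOn.sqrt
  apply ContinuousOn.const_mul
  exact hy.2.1.comp (continuous_const.sub continuous_id).continuousOn
    (fun v hv => ⟨by change 0 ≤ 1 - v; linarith [hv.2], by change 1 - v ≤ 1; linarith [hv.1]⟩)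

theorem pp_pos (hpos : ∀ τ ∈ Ioo (0 : ℝ) 1, 0 < y τ) {v : ℝ} (hv : v ∈ Ioo (0 : ℝ) 1) :
    0 < pp y v := by
  unfold pp
  apply Real.sqrt_pos.mpr
  have := hpos (1 - v) ⟨by linarith [hv.2], by linarith [hv.1]⟩
  positivity

theorem pp_zero (hy1 : y 1 = 0) : pp y 0 = 0 := by
  unfold pp
  rw [sub_zero, hy1, mul_zero, Real.sqrt_zero]

theorem pp_deriv (hy : IsY f c y) (hpos : ∀ τ ∈ Ioo (0 : ℝ) 1, 0 < y τ) {v : ℝ}
    (hv : v ∈ Ioo (0 : ℝ) 1) : HasDerivAt (pp y) (c - f v / pp y v) v := by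
  have hv' : (1 - v) ∈ Ioo (0 : ℝ) 1 := ⟨by linarith [hv.2], by linarith [hv.1]⟩
  have h1 := hy.2.2 (1 - v) hv'
  have h2 : HasDerivAt (fun v : ℝ => 1 - v) (-1) v := by
    simpa using (hasDerivAt_id v).const_sub 1
  have h3 : HasDerivAt (fun v : ℝ => y (1 - v))
      ((f (1 - (1 - v)) - c * √(2 * max (y (1 - v)) 0)) * (-1)) v :=
    HasDerivAt.comp v h1 h2
  have hp := hpos (1 - v) hv'
  have h4 := (h3.const_mul 2).sqrt (by positivity)
  have hpp := pp_pos hpos hv
  have h5 : (2 * ((f (1 - (1 - v)) - c * √(2 * max (y (1 - v)) 0)) * (-1))) /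
      (2 * √(2 * y (1 - v))) = c - f v / pp y v := by
    rw [max_eq_left hp.le]
    have : √(2 * y (1 - v)) = pp y v := rfl
    rw [this, show 1 - (1 - v) = v by ring]
    field_simp
    ring
  rw [h5] at h4
  exact h4

/-- `p(v) ≤ C v` -/
theorem pp_le (hf : Lip f K) (hc : 0 < c) (hy : IsY f c y) (hy1 : y 1 = 0)
    (hpos : ∀ τ ∈ Ioo (0 : ℝ) 1, 0 < y τ) : ∀ v ∈ Ioo (0 : ℝ) 1, pp y v ≤ (c + K + 1) * v := by
  have hK := hf.K0
  set C := c + K + 1 with hC
  have hC0 : 0 < C := by positivity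
  intro v1 hv1
  by_contra hcon
  push Not at hcon
  set S : Set ℝ := {v | v ∈ Icc 0 v1 ∧ pp y v ≤ C * v} with hS
  have hsub1 : Icc 0 v1 ⊆ Icc (0 : ℝ) 1 := Icc_subset_Icc_right hv1.2.le
  have hcont := pp_cont hy
  have hScl : IsClosed S := by
    have : S = Icc 0 v1 ∩ (fun v => pp y v - C * v) ⁻¹' Iic 0 := by
      ext v; simp [hS]
    rw [this]
    exact ((hcont.mono hsub1).sub (continuous_const.mul continuous_id).continuousOn).preimage_isClosed_of_isClosed
      isClosed_Icc isClosed_Iic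
  have h0S : (0 : ℝ) ∈ S := ⟨⟨le_rfl, hv1.1.le⟩, by rw [pp_zero hy1, mul_zero]⟩
  have hbdd : BddAbove S := ⟨v1, fun v hv => hv.1.2⟩
  have hmem : sSup S ∈ S := hScl.csSup_mem ⟨0, h0S⟩ hbdd
  set v0 := sSup S with hv0
  have hlt : v0 < v1 := by
    rcases lt_or_eq_of_le hmem.1.2 with h | h
    · exact h
    · rw [h] at hmem
      exact absurd hmem.2 (not_le.mpr hcon)
  have hgt : ∀ v ∈ Ioo v0 v1, C * v < pp y v := by
    intro v hv
    by_contra hh
    push Not at hh
    have : v ∈ S := ⟨⟨by linarith [hmem.1.1, hv.1], hv.2.le⟩, hh⟩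
    exact absurd (le_csSup hbdd this) (not_le.mpr hv.1)
  have hanti : AntitoneOn (fun v => pp y v - C * v) (Icc v0 v1) := by
    have hint : interior (Icc v0 v1) = Ioo v0 v1 := interior_Icc
    have hsub : Icc v0 v1 ⊆ Icc (0 : ℝ) 1 := Icc_subset_Icc hmem.1.1 hv1.2.le
    have hd2 : ∀ v ∈ Ioo v0 v1, HasDerivAt (fun v => pp y v - C * v) (c - f v / pp y v - C) v := by
      intro v hv
      have h1 := pp_deriv hy hpos (v := v) ⟨by linarith [hmem.1.1, hv.1], by linarith [hv.2, hv1.2]⟩
      have h2 := h1.sub ((hasDerivAt_id v).const_mul C)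
      rw [mul_one] at h2
      exact h2
    apply antitoneOn_of_deriv_nonpos (convex_Icc _ _)
    · exact (hcont.mono hsub).sub (continuous_const.mul continuous_id).continuousOn
    · rw [hint]
      exact fun v hv => (hd2 v hv).differentiableAt.differentiableWithinAt
    · rw [hint]
      intro v hv
      rw [(hd2 v hv).deriv]
      have hv0' : 0 < v := by linarith [hmem.1.1, hv.1]
      have h1 := hgt v hv
      have h2 : 0 < pp y v := lt_trans (by positivity) h1
      have h3 : -(K * v) ≤ f v := by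
        have := abs_f_le hf v
        rw [abs_of_pos hv0'] at this
        exact (abs_le.mp this).1
      have h4 : -(K : ℝ) ≤ f v / pp y v := by
        rw [le_div_iff₀ h2]
        have h5 : K * v ≤ K * pp y v := by
          apply mul_le_mul_of_nonneg_left _ hK.le
          have : (1 : ℝ) * v ≤ C * v := mul_le_mul_of_nonneg_right (by linarith) hv0'.le
          linarith
        linarith
      linarith
  have := hanti (left_mem_Icc.mpr hlt.le) (right_mem_Icc.mpr hlt.le) hlt.le
  simp only at this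
  linarith [hmem.2]

/-- `p(v) ≤ C (1 - v)` -/
theorem pp_le' (hf : Lip f K) (hc : 0 < c) (hy : IsY f c y)
    (hpos : ∀ τ ∈ Ioo (0 : ℝ) 1, 0 < y τ) :
    ∀ v ∈ Ioo (0 : ℝ) 1, pp y v ≤ (c + K + 1) * (1 - v) := by
  have hK := hf.K0
  intro v hv
  have h1 : 2 * y (1 - v) ≤ K * (1 - v) ^ 2 := by
    have hanti : AntitoneOn (fun τ => 2 * y τ - K * τ ^ 2) (Icc (0 : ℝ) 1) := by
      have hint : interior (Icc (0 : ℝ) 1) = Ioo 0 1 := interior_Icc
      have hd2 : ∀ τ ∈ Ioo (0 : ℝ) 1, HasDerivAt (fun τ => 2 * y τ - K * τ ^ 2)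
          (2 * (f (1 - τ) - c * √(2 * max (y τ) 0)) - K * (2 * τ)) τ := by
        intro τ hτ
        have h1 := (hy.2.2 τ hτ).const_mul 2
        have h2 : HasDerivAt (fun τ : ℝ => τ ^ 2) (2 * τ) τ := by
          simpa using hasDerivAt_pow 2 τ
        exact h1.sub (h2.const_mul K)
      apply antitoneOn_of_deriv_nonpos (convex_Icc _ _)
      · exact (hy.2.1.const_mul 2).sub (by fun_prop)
      · rw [hint]
        exact fun v hv => (hd2 v hv).differentiableAt.differentiableWithinAt
      · rw [hint]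
        intro τ hτ
        rw [(hd2 τ hτ).deriv]
        have h1 : f (1 - τ) ≤ K * τ := by
          have := abs_f_le' hf (1 - τ)
          rw [show 1 - (1 - τ) = τ by ring, abs_of_pos hτ.1] at this
          exact (abs_le.mp this).2
        have h2 : 0 ≤ c * √(2 * max (y τ) 0) := by positivity
        linarith
    have := hanti (left_mem_Icc.mpr zero_le_one)
      (show (1 - v) ∈ Icc (0 : ℝ) 1 from ⟨by linarith [hv.2], by linarith [hv.1]⟩)
      (by linarith [hv.2])
    simp only [hy.1, mul_zero, ne_eq, OfNat.ofNat_ne_zero, not_false_eq_true, zero_pow,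
      sub_self] at this
    linarith
  unfold pp
  apply Real.sqrt_le_iff.mpr
  have hv1 : 0 < 1 - v := by linarith [hv.2]
  refine ⟨by positivity, h1.trans ?_⟩
  rw [mul_pow]
  apply mul_le_mul_of_nonneg_right _ (by positivity)
  nlinarith

end profile

/-- the primitive of `1/p` -/
noncomputable def Zf (y : ℝ → ℝ) (v : ℝ) : ℝ := ∫ s in (1 / 2 : ℝ)..v, 1 / pp y s

theorem Zf_deriv {f : ℝ → ℝ} {c : ℝ} {y : ℝ → ℝ} (hy : IsY f c y)
    (hpos : ∀ τ ∈ Ioo (0 : ℝ) 1, 0 < y τ) {v : ℝ} (hv : v ∈ Ioo (0 : ℝ) 1) :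
    HasDerivAt (Zf y) (1 / pp y v) v := by
  have hcont : ContinuousOn (fun s => 1 / pp y s) (Ioo 0 1) := by
    apply ContinuousOn.div continuousOn_const ((pp_cont hy).mono Ioo_subset_Icc_self)
    intro s hs
    exact (pp_pos hpos hs).ne'
  have hsub : uIcc (1 / 2 : ℝ) v ⊆ Ioo 0 1 := by
    intro s hs
    rw [mem_uIcc] at hs
    rcases hs with h | h
    · exact ⟨by linarith [h.1], by linarith [h.2, hv.2]⟩
    · exact ⟨by linarith [h.1, hv.1], by linarith [h.2]⟩
  apply intervalIntegral.integral_hasDerivAt_right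
  · exact (hcont.mono hsub).intervalIntegrable
  · exact hcont.stronglyMeasurableAtFilter isOpen_Ioo v hv
  · exact hcont.continuousAt (Ioo_mem_nhds hv.1 hv.2)

theorem bs4 : T_BS4 := by
  intro f K c y hf hc hy hy1 hpos
  have hK := hf.K0
  set C : ℝ := c + K + 1 with hC
  have hC0 : 0 < C := by positivity
  have hZd := fun v (hv : v ∈ Ioo (0 : ℝ) 1) => Zf_deriv hy hpos hv
  have hZc : ContinuousOn (Zf y) (Ioo 0 1) := fun v hv => (hZd v hv).continuousAt.continuousWithinAt
  have hint : interior (Ioo (0 : ℝ) 1) = Ioo 0 1 := interior_Ioo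
  have hZm : StrictMonoOn (Zf y) (Ioo 0 1) := by
    apply strictMonoOn_of_deriv_pos (convex_Ioo _ _) hZc
    rw [hint]
    intro v hv
    rw [(hZd v hv).deriv]
    exact one_div_pos.mpr (pp_pos hpos hv)
  -- divergence at 1
  have hup : ∀ v ∈ Ico (1 / 2 : ℝ) 1,
      Zf y (1 / 2) - (1 / C) * (Real.log (1 - v) - Real.log (1 / 2)) ≤ Zf y v := by
    have hm : MonotoneOn (fun v => Zf y v + (1 / C) * Real.log (1 - v)) (Ico (1 / 2 : ℝ) 1) := by
      have hint2 : interior (Ico (1 / 2 : ℝ) 1) = Ioo (1 / 2) 1 := interior_Ico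
      have hd : ∀ v ∈ Ico (1 / 2 : ℝ) 1, HasDerivAt (fun v => Zf y v + (1 / C) * Real.log (1 - v))
          (1 / pp y v + (1 / C) * (-1 / (1 - v))) v := by
        intro v hv
        have h1 := hZd v ⟨by linarith [hv.1], hv.2⟩
        have h2 : HasDerivAt (fun v : ℝ => 1 - v) (-1) v := by
          simpa using (hasDerivAt_id v).const_sub 1
        have h3 := (h2.log (by linarith [hv.2])).const_mul (1 / C)
        exact h1.add h3
      apply monotoneOn_of_deriv_nonneg (convex_Ico _ _)
      · exact fun v hv => (hd v hv).continuousAt.continuousWithinAt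
      · rw [hint2]
        exact fun v hv => (hd v ⟨hv.1.le, hv.2⟩).differentiableAt.differentiableWithinAt
      · rw [hint2]
        intro v hv
        rw [(hd v ⟨hv.1.le, hv.2⟩).deriv]
        have hv' : v ∈ Ioo (0 : ℝ) 1 := ⟨by linarith [hv.1], hv.2⟩
        have h1 := pp_le' hf hc hy hpos v hv'
        have h2 := pp_pos hpos hv'
        have h3 : 0 < 1 - v := by linarith [hv.2]
        have h4 : 1 / (C * (1 - v)) ≤ 1 / pp y v := one_div_le_one_div_of_le h2 h1
        have h5 : (1 / C) * (-1 / (1 - v)) = -(1 / (C * (1 - v))) := by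
          field_simp
        rw [h5]
        linarith
    intro v hv
    have := hm ⟨le_rfl, by norm_num⟩ hv hv.1
    simp only at this
    have h1 : (1 : ℝ) - 1 / 2 = 1 / 2 := by norm_num
    rw [h1] at this
    linarith
  -- divergence at 0
  have hlow : ∀ v ∈ Ioc (0 : ℝ) (1 / 2),
      Zf y v ≤ Zf y (1 / 2) + (1 / C) * (Real.log v - Real.log (1 / 2)) := by
    have hm : MonotoneOn (fun v => Zf y v - (1 / C) * Real.log v) (Ioc (0 : ℝ) (1 / 2)) := by
      have hint2 : interior (Ioc (0 : ℝ) (1 / 2)) = Ioo 0 (1 / 2) := interior_Ioc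
      have hd : ∀ v ∈ Ioc (0 : ℝ) (1 / 2), HasDerivAt (fun v => Zf y v - (1 / C) * Real.log v)
          (1 / pp y v - (1 / C) * v⁻¹) v := by
        intro v hv
        have h1 := hZd v ⟨hv.1, by linarith [hv.2]⟩
        have h3 := (Real.hasDerivAt_log hv.1.ne').const_mul (1 / C)
        exact h1.sub h3
      apply monotoneOn_of_deriv_nonneg (convex_Ioc _ _)
      · exact fun v hv => (hd v hv).continuousAt.continuousWithinAt
      · rw [hint2]
        exact fun v hv => (hd v ⟨hv.1, hv.2.le⟩).differentiableAt.differentiableWithinAt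
      · rw [hint2]
        intro v hv
        rw [(hd v ⟨hv.1, hv.2.le⟩).deriv]
        have hv' : v ∈ Ioo (0 : ℝ) 1 := ⟨hv.1, by linarith [hv.2]⟩
        have h1 := pp_le hf hc hy hy1 hpos v hv'
        have h2 := pp_pos hpos hv'
        have h3 : 0 < v := hv.1
        have h4 : 1 / (C * v) ≤ 1 / pp y v := one_div_le_one_div_of_le h2 h1
        have h5 : (1 / C) * v⁻¹ = 1 / (C * v) := by
          field_simp
        rw [h5]
        linarith
    intro v hv
    have := hm hv ⟨by norm_num, le_rfl⟩ hv.2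
    simp only at this
    linarith
  -- surjectivity
  have hsurj : ∀ x : ℝ, ∃ v ∈ Ioo (0 : ℝ) 1, Zf y v = x := by
    intro x
    -- a point above
    obtain ⟨b, hb, hbx⟩ : ∃ b ∈ Ioo (0 : ℝ) 1, x ≤ Zf y b := by
      set A : ℝ := C * (|x - Zf y (1 / 2)|) with hA
      have hA0 : 0 ≤ A := by positivity
      refine ⟨1 - (1 / 2) * Real.exp (-A), ⟨?_, ?_⟩, ?_⟩
      · have : Real.exp (-A) ≤ 1 := Real.exp_le_one_iff.mpr (by linarith)
        linarith
      · have := Real.exp_pos (-A)
        linarith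
      · have h1 : Real.exp (-A) ≤ 1 := Real.exp_le_one_iff.mpr (by linarith)
        have h2 := Real.exp_pos (-A)
        have h3 := hup (1 - (1 / 2) * Real.exp (-A)) ⟨by linarith, by linarith⟩
        rw [show 1 - (1 - (1 / 2) * Real.exp (-A)) = (1 / 2) * Real.exp (-A) by ring,
          Real.log_mul (by norm_num) h2.ne', Real.log_exp] at h3
        have h4 : (1 / C) * (Real.log (1 / 2) + -A - Real.log (1 / 2)) = -|x - Zf y (1 / 2)| := by
          rw [hA]; field_simp; ring
        rw [h4] at h3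
        have h5 := le_abs_self (x - Zf y (1 / 2))
        linarith
    obtain ⟨a, ha, hax⟩ : ∃ a ∈ Ioo (0 : ℝ) 1, Zf y a ≤ x := by
      set A : ℝ := C * (|x - Zf y (1 / 2)|) with hA
      have hA0 : 0 ≤ A := by positivity
      have h1 : Real.exp (-A) ≤ 1 := Real.exp_le_one_iff.mpr (by linarith)
      have h2 := Real.exp_pos (-A)
      refine ⟨(1 / 2) * Real.exp (-A), ⟨by positivity, by linarith⟩, ?_⟩
      have h3 := hlow ((1 / 2) * Real.exp (-A)) ⟨by positivity, by linarith⟩
      rw [Real.log_mul (by norm_num) h2.ne', Real.log_exp] at h3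
      have h4 : (1 / C) * (Real.log (1 / 2) + -A - Real.log (1 / 2)) = -|x - Zf y (1 / 2)| := by
        rw [hA]; field_simp; ring
      rw [h4] at h3
      have h5 := neg_abs_le (x - Zf y (1 / 2))
      linarith
    have hconn : IsPreconnected (Ioo (0 : ℝ) 1) := isPreconnected_Ioo
    exact hconn.intermediate_value ha hb hZc ⟨hax, hbx⟩
  choose ψ hψ hψZ using hsurj
  have hψmono : StrictMono ψ := by
    intro a b hab
    by_contra hcon
    push Not at hcon
    have := hZm.monotoneOn (hψ b) (hψ a) hcon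
    rw [hψZ, hψZ] at this
    linarith
  have hψinv : ∀ v ∈ Ioo (0 : ℝ) 1, ψ (Zf y v) = v := by
    intro v hv
    exact hZm.injOn (hψ _) hv (hψZ _)
  have hrange : range ψ = Ioo 0 1 := by
    ext v
    constructor
    · rintro ⟨x, rfl⟩; exact hψ x
    · intro hv; exact ⟨Zf y v, hψinv v hv⟩
  have hψcont : Continuous ψ := by
    rw [continuous_iff_continuousAt]
    intro x
    apply continuousAt_of_monotoneOn_of_closure_image_mem_nhds (hψmono.monotone.monotoneOn univ)
      univ_mem
    rw [image_univ, hrange]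
    exact mem_of_superset (Ioo_mem_nhds (hψ x).1 (hψ x).2) subset_closure
  have hψd : ∀ x, HasDerivAt ψ (pp y (ψ x)) x := by
    intro x
    have h1 := hZd (ψ x) (hψ x)
    have h2 := HasDerivAt.of_local_left_inverse (hψcont.continuousAt) h1
      (one_div_pos.mpr (pp_pos hpos (hψ x))).ne' (Eventually.of_forall hψZ)
    simpa using h2
  set φ : ℝ → ℝ := fun x => ψ (-x) with hφ
  have hφm : ∀ z, φ z ∈ Ioo (0 : ℝ) 1 := fun z => hψ (-z)
  have hφd : ∀ z, HasDerivAt φ (-pp y (φ z)) z := by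
    intro z
    have h1 : HasDerivAt (fun x : ℝ => -x) (-1) z := hasDerivAt_neg z
    have h2 : HasDerivAt φ (pp y (ψ (-z)) * (-1)) z := HasDerivAt.comp z (hψd (-z)) h1
    rw [mul_neg_one] at h2
    exact h2
  have hφderiv : deriv φ = fun z => -pp y (φ z) := funext fun z => (hφd z).deriv
  have hφd2 : ∀ z, HasDerivAt (deriv φ) (c * pp y (φ z) - f (φ z)) z := by
    intro z
    rw [hφderiv]
    have h1 := pp_deriv hy hpos (hφm z)
    have h2 := (HasDerivAt.comp z h1 (hφd z)).neg
    have h3 := pp_pos hpos (hφm z)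
    have h4 : -((c - f (φ z) / pp y (φ z)) * -pp y (φ z)) = c * pp y (φ z) - f (φ z) := by
      field_simp
    rw [h4] at h2
    exact h2
  have hφcont : Continuous φ := hψcont.comp continuous_neg
  have hppc : Continuous (fun z => pp y (φ z)) :=
    (pp_cont hy).comp_continuous hφcont (fun z => Ioo_subset_Icc_self (hφm z))
  refine ⟨φ, ?_, hφm, ?_, ?_, ?_, ?_⟩
  · have h1 : ContDiff ℝ 1 (deriv φ) := by
      rw [contDiff_one_iff_deriv]
      refine ⟨fun z => (hφd2 z).differentiableAt, ?_⟩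
      have : deriv (deriv φ) = fun z => c * pp y (φ z) - f (φ z) :=
        funext fun z => (hφd2 z).deriv
      rw [this]
      exact (continuous_const.mul hppc).sub ((lip_cont hf).comp hφcont)
    have h2 : ContDiff ℝ (1 + 1) φ := by
      rw [contDiff_succ_iff_deriv]
      exact ⟨fun z => (hφd z).differentiableAt, by simp, h1⟩
    have h3 : ((1 : WithTop ℕ∞) + 1) = 2 := by norm_num
    rwa [h3] at h2
  · intro z
    rw [hφderiv]
    rfl
  · intro z
    rw [(hφd2 z).deriv, hφderiv]
    ring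
  · have h1 : Tendsto ψ atTop (𝓝 1) := by
      apply tendsto_atTop_isLUB hψmono.monotone
      rw [hrange]
      exact isLUB_Ioo (by norm_num)
    exact h1.comp tendsto_neg_atBot_atTop
  · have h1 : Tendsto ψ atBot (𝓝 0) := by
      apply tendsto_atBot_isGLB hψmono.monotone
      rw [hrange]
      exact isGLB_Ioo (by norm_num)
    exact h1.comp tendsto_neg_atTop_atBot

end Pool.Agent.H67.RD
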