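import Pool.Agent.H91.RD.Targets

/-! # MP_609556_an, module BS5: existence of the front. helper67 -/

open MeasureTheory Set Filter Topology Metric

namespace Pool.Agent.H67.RD

open Pool.Agent.H91.RD

theorem bs5 (bs3 : T_BS3) (bs4 : T_BS4) : T_BS5 := by
  intro f K θ hf hθ0 hθ1 hneg hpos hint
  obtain ⟨c, y, hc, hy, hy1, hypos, hlow⟩ := bs3 f K θ hf hθ0 hθ1 hneg hpos hint
  obtain ⟨φ, hφ2, hφm, hφ', heq, hbot, htop⟩ := bs4 f K c y hf hc hy hy1 hypos
  have hdiff : Differentiable ℝ φ := hφ2.differentiable (by norm_num)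
  have hdneg : ∀ z, deriv φ z < 0 := by
    intro z
    rw [hφ' z]
    have h1 := hypos (1 - φ z) ⟨by linarith [(hφm z).2], by linarith [(hφm z).1]⟩
    have h2 : 0 < √(2 * y (1 - φ z)) := Real.sqrt_pos.mpr (by positivity)
    linarith
  have hanti : StrictAnti φ := strictAnti_of_deriv_neg hdneg
  obtain ⟨zθ, hzθ⟩ : ∃ z, φ z ≤ θ := by
    have h1 := htop.eventually_lt_const hθ0
    obtain ⟨z, hz⟩ := h1.exists
    exact ⟨z, hz.le⟩
  have hle : ∀ z ≥ zθ, φ z ≤ θ := fun z hz => (hanti.antitone hz).trans hzθ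
  have hdle : ∀ z ≥ zθ, deriv φ z ≤ -(c * φ z) := by
    intro z hz
    rw [hφ' z]
    have h1 := hlow (1 - φ z) ⟨by linarith [hle z hz], by linarith [(hφm z).1]⟩
    rw [show 1 - (1 - φ z) = φ z by ring] at h1
    linarith
  have hexp : AntitoneOn (fun z => φ z * Real.exp (c * z)) (Ici zθ) := by
    have hd : ∀ z, HasDerivAt (fun z => φ z * Real.exp (c * z))
        (deriv φ z * Real.exp (c * z) + φ z * (Real.exp (c * z) * c)) z := by
      intro z
      have h1 := (hdiff z).hasDerivAt
      have h2 : HasDerivAt (fun z : ℝ => c * z) c z := by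
        have := (hasDerivAt_id z).const_mul c
        rw [mul_one] at this
        exact this
      exact h1.mul h2.exp
    apply antitoneOn_of_deriv_nonpos (convex_Ici _)
    · exact fun z _ => (hd z).continuousAt.continuousWithinAt
    · exact fun z _ => (hd z).differentiableAt.differentiableWithinAt
    · rw [interior_Ici]
      intro z hz
      rw [(hd z).deriv]
      have h1 := hdle z (le_of_lt hz)
      have h2 := Real.exp_pos (c * z)
      nlinarith
  refine ⟨c, φ, ⟨hc, hφ2, heq, hdneg, hbot, htop, by linarith, ?_⟩⟩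
  refine ⟨Real.exp (3 / 4 * c * zθ), fun z => ?_⟩
  rw [← Real.exp_add]
  rcases le_total zθ z with hz | hz
  · have h1 := hexp self_mem_Ici hz hz
    simp only at h1
    have h2 : φ z ≤ Real.exp (c * zθ) * Real.exp (-(c * z)) := by
      have h3 : φ zθ * Real.exp (c * zθ) ≤ 1 * Real.exp (c * zθ) :=
        mul_le_mul_of_nonneg_right (hφm zθ).2.le (Real.exp_pos _).le
      have h4 : φ z = (φ z * Real.exp (c * z)) * Real.exp (-(c * z)) := by
        rw [mul_assoc, ← Real.exp_add]; simp
      rw [h4]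
      apply mul_le_mul_of_nonneg_right _ (Real.exp_pos _).le
      linarith
    rw [← Real.exp_add] at h2
    refine h2.trans (Real.exp_le_exp.mpr ?_)
    nlinarith [mul_nonneg hc.le (sub_nonneg.mpr hz)]
  · have h1 : (1 : ℝ) ≤ Real.exp (3 / 4 * c * zθ + -(3 / 4 * c) * z) := by
      apply Real.one_le_exp
      nlinarith [mul_nonneg hc.le (sub_nonneg.mpr hz)]
    linarith [(hφm z).2]

end Pool.Agent.H67.RD
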