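import Pool.Agent.H91.RD.Targets2

/-!
# Module HYPF2 (MP_609556_an): the constants.

The lemmas `cont_g`, `lip`, `mvi`, `near_pt` are those of `Pool.Agent.H19.RD.LIP` (helper19).
-/

open Set Filter Topology

namespace Pool.Agent.H67.RD.HYPF2
open Pool.Agent.H91.RD

theorem cont_g {f : ℝ → ℝ} (h : Reaction f) :
    ContinuousOn (derivWithin f (Icc 0 1)) (Icc 0 1) :=
  h.smooth.continuousOn_derivWithin uniqueDiffOn_Icc_zero_one le_rfl

theorem mvi {f : ℝ → ℝ} (h : Reaction f) {a b C : ℝ} (ha : 0 ≤ a) (hb : b ≤ 1)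
    (hg : ∀ s ∈ Icc a b, derivWithin f (Icc 0 1) s ≤ C) :
    ∀ p q, a ≤ p → p ≤ q → q ≤ b → f q - f p ≤ C * (q - p) := by
  have hd : DifferentiableOn ℝ f (Icc 0 1) := h.smooth.differentiableOn one_ne_zero
  have hsub : Icc a b ⊆ Icc (0 : ℝ) 1 := Icc_subset_Icc ha hb
  have hn : ∀ x ∈ interior (Icc a b), Icc (0 : ℝ) 1 ∈ 𝓝 x := by
    intro x hx
    rw [interior_Icc] at hx
    exact Icc_mem_nhds (lt_of_le_of_lt ha hx.1) (lt_of_lt_of_le hx.2 hb)
  intro p q h1 h2 h3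
  refine (convex_Icc a b).image_sub_le_mul_sub_of_deriv_le (hd.continuousOn.mono hsub)
    ?_ ?_ p ⟨h1, h2.trans h3⟩ q ⟨h1.trans h2, h3⟩ h2
  · intro x hx
    exact ((hd x (hsub (interior_subset hx))).differentiableAt (hn x hx)).differentiableWithinAt
  · intro x hx
    rw [← derivWithin_of_mem_nhds (hn x hx)]
    exact hg x (interior_subset hx)

theorem near_pt {g : ℝ → ℝ} (hg : ContinuousOn g (Icc 0 1)) {x C : ℝ} (hx : x ∈ Icc (0 : ℝ) 1)
    (hC : g x < C) : ∃ δ > 0, ∀ s ∈ Icc (0 : ℝ) 1, |s - x| < δ → g s ≤ C := by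
  have h1 : ∀ᶠ s in 𝓝[Icc 0 1] x, g s < C := (hg x hx).eventually_lt_const hC
  rw [eventually_nhdsWithin_iff, Metric.eventually_nhds_iff] at h1
  obtain ⟨δ, hδ, h1⟩ := h1
  exact ⟨δ, hδ, fun s hs h => (h1 (by rwa [Real.dist_eq]) hs).le⟩

theorem hypf2 (hL : T_LIP) : T_HYPF := by
  intro f φ c lam h hg1 hg0 hF
  obtain ⟨K1, hK1⟩ := hL f h
  have hc := hF.cpos
  have hc4 : 0 < c ^ 2 / 4 := by positivity
  set g := derivWithin f (Icc 0 1) with hgdef
  have hgc : ContinuousOn g (Icc 0 1) := cont_g h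
  -- near 0
  obtain ⟨k, hk0, hk1b, hkc⟩ : ∃ k1, 0 ≤ k1 ∧ g 0 < k1 ∧ k1 < c ^ 2 / 4 := by
    refine ⟨max 0 ((g 0 + c ^ 2 / 4) / 2), le_max_left _ _, ?_, ?_⟩
    · exact lt_of_lt_of_le (by linarith) (le_max_right _ _)
    · exact max_lt hc4 (by linarith)
  obtain ⟨d1, hd1, hd1'⟩ := near_pt hgc ⟨le_rfl, zero_le_one⟩ hk1b
  obtain ⟨d2, hd2, hd2'⟩ := near_pt hgc ⟨zero_le_one, le_rfl⟩
    (show g 1 < g 1 / 2 by linarith)
  set δ := min (d1 / 2) (min (d2 / 2) (1 / 8)) with hδ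
  have hδ0 : 0 < δ := by
    refine lt_min (by linarith) (lt_min (by linarith) (by norm_num))
  have hδ1 : δ ≤ d1 / 2 := min_le_left _ _
  have hδ2 : δ ≤ d2 / 2 := (min_le_right _ _).trans (min_le_left _ _)
  have hδ3 : δ ≤ 1 / 8 := (min_le_right _ _).trans (min_le_right _ _)
  have hn0 : ∀ p q, 0 ≤ p → p ≤ q → q ≤ δ → f q - f p ≤ k * (q - p) := by
    refine mvi h le_rfl (by linarith) ?_
    intro s hs
    exact hd1' s ⟨hs.1, by linarith [hs.2]⟩
      (by rw [sub_zero, abs_of_nonneg hs.1]; linarith [hs.2])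
  have hn1 : ∀ p q, 1 - δ ≤ p → p ≤ q → q ≤ 1 → f q - f p ≤ (g 1 / 2) * (q - p) := by
    refine mvi h (by linarith) le_rfl ?_
    intro s hs
    exact hd2' s ⟨by linarith [hs.1], hs.2⟩
      (by rw [abs_sub_comm, abs_of_nonneg (by linarith [hs.2])]; linarith [hs.1])
  have hφa : StrictAnti φ := strictAnti_of_deriv_neg hF.dec
  have hφ0 : ∀ z, 0 ≤ φ z := fun z => hφa.antitone.le_of_tendsto hF.right z
  have hφ1 : ∀ z, φ z ≤ 1 := fun z => hφa.antitone.ge_of_tendsto hF.left z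
  set lam' := min lam (3 / 4 * c) with hlam
  have hl1 : lam' ≤ lam := min_le_left _ _
  have hl2 : lam' ≤ 3 / 4 * c := min_le_right _ _
  have hl3 : c / 2 < lam' := lt_min hF.fast (by linarith)
  refine ⟨lam', max K1 k, k, -(g 1 / 2), δ, 1 - δ, ?_⟩
  refine
    { toLip := ?_
      k0 := hk0
      kK := le_max_right _ _
      kc := by linarith
      mu0 := by linarith
      eta0 := hδ0
      eta1 := hδ3
      near1 := ?_
      near0 := hn0
      th0 := by linarith
      th1 := by linarith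
      high := ?_
      front := ?_
      lamc := by linarith }
  · refine ⟨lt_of_lt_of_le hK1.K0 (le_max_left _ _), ?_, hK1.f0, hK1.f1, hK1.out⟩
    intro a b
    exact (hK1.lip a b).trans (mul_le_mul_of_nonneg_right (le_max_left _ _) (abs_nonneg _))
  · intro a b ha hab hb
    have := hn1 a b ha hab hb
    linarith
  · intro s hs0 hs1
    have h1 := hn1 s 1 hs0 hs1.le le_rfl
    rw [h.one] at h1
    have h2 : 0 < -(g 1 / 2) * (1 - s) := mul_pos (by linarith) (by linarith)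
    linarith
  · refine ⟨hF.cpos, hF.c2, hF.eqn, hF.dec, hF.left, hF.right, hl3, ?_⟩
    obtain ⟨C, hC⟩ := hF.decay
    refine ⟨max C 1, fun z => ?_⟩
    have he : 0 < Real.exp (-lam' * z) := Real.exp_pos _
    rcases le_total 0 z with hz | hz
    · have h3 : Real.exp (-lam * z) ≤ Real.exp (-lam' * z) :=
        Real.exp_le_exp.2 (by nlinarith)
      have h4 : 0 < Real.exp (-lam * z) := Real.exp_pos _
      calc φ z ≤ C * Real.exp (-lam * z) := hC z
        _ ≤ max C 1 * Real.exp (-lam * z) :=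
            mul_le_mul_of_nonneg_right (le_max_left _ _) h4.le
        _ ≤ max C 1 * Real.exp (-lam' * z) :=
            mul_le_mul_of_nonneg_left h3 (le_trans zero_le_one (le_max_right _ _))
    · have h5 : 1 ≤ Real.exp (-lam' * z) := by
        rw [Real.one_le_exp_iff]
        nlinarith
      calc φ z ≤ 1 := hφ1 z
        _ ≤ Real.exp (-lam' * z) := h5
        _ ≤ max C 1 * Real.exp (-lam' * z) := le_mul_of_one_le_left he.le (le_max_right _ _)

end Pool.Agent.H67.RD.HYPF2
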