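import Pool.Agent.H91.RD.Targets2
import Pool.Agent.H46.RD.NP

/-!
Module NPG (MP_609556_an): far from the ignited set of level `b` the solution is below the
threshold (adaptation of `Pool.Agent.H46.RD.NP` of helper46).
-/

set_option autoImplicit false

open MeasureTheory Set Filter Topology Metric
open Pool.Agent.H91.RD Pool.Agent.H46.RD

namespace Pool.Agent.H67.RD.NPG

theorem npg (h1 : T_CONE) (h2 : T_ODEG) (h3 : T_E0) : T_NPG := by
  intro N f K b c θ θ' U u hN hf hc hθ'0 hθ'1 hθb hb1 hθ'f hU hC hu η R0 C t3 hη hη1 hR0 hC1 ht3 hE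
    hup
  have hK : 0 < K := hf.K0
  obtain ⟨L, S0, hL, hS0, hode⟩ := h2 N f K θ' b η R0 hf hθ'0 (by linarith) hb1 hθ'f hη hR0
  -- the time shift
  obtain ⟨s1, hs1C, hs1⟩ : ∃ s1, C ≤ s1 ∧ 0 ≤ c * s1 - C * √s1 := by
    refine ⟨C + (C / c) ^ 2, by nlinarith [sq_nonneg (C / c)], ?_⟩
    set s1 := C + (C / c) ^ 2 with hs1d
    have h0 : 0 ≤ s1 := by positivity
    have h5 : C / c ≤ √s1 := by
      apply Real.le_sqrt_of_sq_le
      linarith
    have h6 : √s1 * √s1 = s1 := Real.mul_self_sqrt h0
    have h7 : C ≤ c * √s1 := by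
      rw [div_le_iff₀ hc] at h5
      linarith
    have h8 : C * √s1 ≤ c * √s1 * √s1 := mul_le_mul_of_nonneg_right h7 (Real.sqrt_nonneg _)
    have h9 : c * √s1 * √s1 = c * s1 := by rw [mul_assoc, h6]
    linarith
  -- the opening of the cone
  obtain ⟨s0, hs00, hs01, hs0⟩ : ∃ s0, 0 < s0 ∧ s0 < 1 ∧ 4 * K * s0 ^ 2 < (c / 2) ^ 2 := by
    have hd : 0 < c + 4 * K + 4 := by positivity
    refine ⟨c / (c + 4 * K + 4), by positivity, ?_, ?_⟩
    · rw [div_lt_one hd]
      linarith
    · rw [div_pow, div_pow, ← mul_div_assoc, div_lt_div_iff₀ (by positivity) (by norm_num)]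
      have : 16 * K < (c + 4 * K + 4) ^ 2 := by nlinarith
      have hc2 : 0 < c ^ 2 := by positivity
      nlinarith
  set M := L + L / s0 + 1 with hM
  have hLs0 : 0 < L / s0 := by positivity
  have hMpos : 0 < M := by linarith
  obtain ⟨Tc, hTc, hcone⟩ := h1 N f K K U u hf hK
    (fun p q _ h _ => by
      have h4 := hf.lip q p
      rw [abs_of_nonneg (sub_nonneg.2 h)] at h4
      exact (le_abs_self _).trans h4)
    hC hu (c / 2) s0 (M + L) (θ - θ') (by linarith) hs00 hs01 hs0 (by linarith) (by linarith)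
  set T1 := 3 * t3 + 4 * C ^ 2 / c ^ 2 + 4 * C / c + C with hT1
  have hC2 : 0 ≤ 4 * C ^ 2 / c ^ 2 := by positivity
  have hC3 : 0 ≤ 4 * C / c := by positivity
  refine ⟨M + 1, S0 + s1, max Tc T1, by linarith, by linarith, ?_, ?_⟩
  · refine le_trans ?_ (le_max_right _ _)
    linarith
  intro t ht y hy
  have htc : Tc ≤ t := (le_max_left _ _).trans ht
  have ht1 : T1 ≤ t := (le_max_right _ _).trans ht
  have htt3 : t3 + C ≤ t := by linarith
  have ht0 : 0 < t := by linarith
  have hyI : y ∉ ig u (b - η) R0 (t + (S0 + s1)) := by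
    intro h
    rw [infDist_zero_of_mem h] at hy
    linarith
  -- (i)
  have hdist : c / 2 * t ≤ infDist y U := by
    rw [le_infDist hU]
    intro p hp
    obtain ⟨p', hp', hpp'⟩ := hup p hp
    set s := t + (S0 + s1) - t3 with hs
    have hsC : C ≤ s := by linarith
    have hs0' : 0 ≤ s := by linarith
    have h4 : ¬ dist p' y ≤ c * s - C * √s := by
      intro h
      have := hE t3 le_rfl s hsC p' hp' y h
      apply hyI
      have e : t3 + s = t + (S0 + s1) := by
        rw [hs]
        ring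
      rwa [e] at this
    push Not at h4
    have h5 : dist p' y ≤ dist p p' + dist y p := by
      have := dist_triangle p' p y
      rw [dist_comm p' p, dist_comm p y] at this
      exact this
    have h6 : C * √s ≤ c * s / 4 + C ^ 2 / c := by
      have hq : √s * √s = s := Real.mul_self_sqrt hs0'
      have : 0 ≤ (c * √s / 2 - C) ^ 2 / c := by positivity
      have e : (c * √s / 2 - C) ^ 2 / c = c * (√s * √s) / 4 - C * √s + C ^ 2 / c := by
        field_simp
        ring
      rw [e, hq] at this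
      linarith
    have h7 : C ^ 2 / c = c / 4 * (4 * C ^ 2 / c ^ 2) := by field_simp
    have h8 : C = c / 4 * (4 * C / c) := by field_simp
    have h9 : c / 4 * T1 ≤ c / 4 * t := mul_le_mul_of_nonneg_left ht1 (by positivity)
    have h10 : c / 4 * T1 = c / 4 * (3 * t3) + c / 4 * (4 * C ^ 2 / c ^ 2) + c / 4 * (4 * C / c)
        + c / 4 * C := by
      rw [hT1]
      ring
    have h11 : c * (t - t3) ≤ c * s := mul_le_mul_of_nonneg_left (by linarith) hc.le
    have h12 : 0 ≤ c / 4 * C := by positivity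
    nlinarith
  have hpos : 0 < infDist y U := by
    have : 0 < c / 2 * t := by positivity
    linarith
  obtain ⟨ξ, e, hD⟩ := h3 N U y hpos
  have he := hD.unit
  -- (ii)
  obtain ⟨z, hz, hzt⟩ : ∃ z ∈ closedBall (y - M • e) L, u t z < θ' := by
    by_contra hcon
    push Not at hcon
    have h4 := hode 0 (lift0 U u) hu.mild hu.rng t ht0 (y - M • e) (by
      rw [lift0_pos ht0]
      exact hcon)
    rw [lift0_pos (by linarith)] at h4
    have h5 : y - M • e ∈ ig u (b - η) R0 (t + S0) := h4
    have h6 := hE (t + S0) (by linarith) s1 hs1C _ h5 (y - M • e) (by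
      rw [dist_self]
      exact hs1)
    rw [add_assoc] at h6
    have h7 := infDist_le_dist_of_mem (x := y) h6
    rw [dist_eq_norm, sub_sub_cancel, norm_smul, he, mul_one, Real.norm_eq_abs,
      abs_of_pos hMpos] at h7
    linarith
  have hv : ‖z - (y - M • e)‖ ≤ L := by
    rwa [mem_closedBall, dist_eq_norm] at hz
  have hh : y - z = M • e - (z - (y - M • e)) := by abel
  have hcm := cone_mem he hL.le hs00 hs01 (le_refl M) hv hh
  have hnorm : ‖y - z‖ ≤ M + L := by
    rw [hh]
    refine (norm_sub_le _ _).trans ?_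
    rw [norm_smul, he, mul_one, Real.norm_eq_abs, abs_of_pos hMpos]
    linarith
  have hfin := hcone t htc y ξ e hD hdist z (y - z) (by rwa [norm_sub_rev]) hnorm hcm
  rw [add_sub_cancel] at hfin
  linarith

end Pool.Agent.H67.RD.NPG
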