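import Pool.Agent.H91.RD.Targets2
import Pool.Agent.H91.RD.Basic

/-!
# MP_609556_an: module ZEROG (adaptation of `Pool.Agent.H52.RD.Zero`)
-/

open MeasureTheory Set Filter Topology Metric
open Pool.Agent.H29.TF (hk P)
open Pool.Agent.H91.RD

namespace Pool.Agent.H67.RD.ZEROG

theorem zerog (h : T_CMP) : T_ZEROG := by
  intro N f K c C t3 a b U I u w tn xn hf hab hfa hG hT htn hw hlim hfar
  obtain ⟨s1, hs1, hsq⟩ := hG.sq
  have hba : 0 < b - a := by linarith
  have h1 : ∀ τ ≤ -s1, ∀ x, w τ x ≤ a := by
    intro τ hτ x
    have hb : Tendsto (fun n => C * Real.exp (-(c / 2 * (infDist (xn n) (I (tn n)) - ‖x‖))))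
        atTop (𝓝 0) := by
      have h2 : Tendsto (fun n => c / 2 * (infDist (xn n) (I (tn n)) - ‖x‖)) atTop atTop := by
        apply Tendsto.const_mul_atTop (by linarith [hG.c0])
        exact tendsto_atTop_add_const_right _ _ hfar
      have h3 : Tendsto (fun n => Real.exp (-(c / 2 * (infDist (xn n) (I (tn n)) - ‖x‖))))
          atTop (𝓝 0) := Real.tendsto_exp_neg_atTop_nhds_zero.comp h2
      simpa using h3.const_mul C
    have hl : Tendsto (fun n => (u (tn n + τ) (xn n + x) - a) / (b - a)) atTop
        (𝓝 ((w τ x - a) / (b - a))) := ((hlim.tendsto τ x).sub_const a).div_const _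
    have h7 : (w τ x - a) / (b - a) ≤ 0 := by
      refine le_of_tendsto_of_tendsto hl hb ?_
      filter_upwards [htn.eventually_ge_atTop (t3 - τ)] with n hn
      have h4 : t3 ≤ tn n + τ := by linarith
      refine (hT (tn n + τ) h4 (xn n + x)).trans ?_
      have hsub : I (tn n + τ) ⊆ I (tn n) := by
        intro y hy
        have := hG.expd (tn n + τ) h4 (-τ) (by linarith) y hy y (by
          rw [dist_self]; exact hsq _ (by linarith))
        simpa using this
      have h5 : infDist (xn n + x) (I (tn n)) ≤ infDist (xn n + x) (I (tn n + τ)) :=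
        infDist_le_infDist_of_subset hsub (hG.ne _ h4)
      have h6 : infDist (xn n) (I (tn n)) ≤ infDist (xn n + x) (I (tn n)) + ‖x‖ := by
        have := infDist_le_infDist_add_dist (s := I (tn n)) (x := xn n) (y := xn n + x)
        rwa [dist_self_add_right] at this
      apply mul_le_mul_of_nonneg_left _ (by linarith [hG.C0])
      apply Real.exp_le_exp.2
      apply neg_le_neg
      apply mul_le_mul_of_nonneg_left _ (by linarith [hG.c0])
      linarith
    rw [div_le_iff₀ hba, zero_mul] at h7
    linarith
  intro t x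
  rcases le_or_gt t (-s1) with ht | ht
  · exact h1 t ht x
  have := h N f K K (-s1) (-s1) t w (fun _ _ => a) hf le_rfl ht (hw.1 _) (mild_const hfa _)
    (fun r hr y hy => by
      have := hf.lip (w r y) a
      rw [abs_of_pos (by linarith : 0 < w r y - a)] at this
      exact (le_abs_self _).trans this) x
  have h3 : (fun y : E N => max (w (-s1) y - a) 0) = fun _ => 0 := by
    ext y
    exact max_eq_right (by linarith [h1 (-s1) le_rfl y])
  rw [h3, Pool.Agent.H29.TF.P_const (by linarith), mul_zero] at this
  linarith

end Pool.Agent.H67.RD.ZEROG
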